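import Pool.Agent.W_448v_h15.VF
import Pool.Agent.W_448p6_h15.PA
import Pool.Agent.W_448i2_h61.TD

/-!
The value of `w3` of a star component (MP_448cb3_co, case B), part G: the theorem.
-/

namespace Pool.Agent.GaussPoset.Win.K2

set_option linter.unusedSectionVars false

open Finset I2

universe u

variable {P : Type u} [Fintype P] [PartialOrder P] [DecidableEq P] {r i : ℕ} {e : P → ℕ}
variable {K : Finset P} {psi : P → P}

/-- the double near elements of `K` in the part `C` -/
noncomputable def KD (i : ℕ) (K C : Finset P) : Finset P := (K ∩ C) ∩ (dbL P i ∪ dbU P i)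

/-- the common sites of the elements of `G` -/
noncomputable def cm (i : ℕ) (C G : Finset P) : Finset P :=
  (st i C).filter (fun q => ∀ k ∈ G, q ∈ ns i k)

/-- the pairs of elements of `K` with exactly one common site -/
noncomputable def I1 (i : ℕ) (K C : Finset P) : Finset (Finset P) :=
  ((KD i K C).powersetCard 2).filter (fun G => (cm i C G).card = 1)

open Classical in
/-- the triples `z`, `y`, `k` with `z` a private child of the double `y` and `k` disjoint from `y` -/
noncomputable def I2' (i : ℕ) (K C : Finset P) : Finset ((P × P) × P) :=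
  ((C ×ˢ (dbL P i ∪ dbU P i)) ×ˢ KD i K C).filter
    (fun t => Pvt i t.1.1 t.1.2 ∧ Disjoint (ns i t.1.2) (ns i t.2))

/-- the contribution of the pairs -/
noncomputable def c1 (i : ℕ) (K C : Finset P) : ℤ := ∑ G ∈ I1 i K C, ∏ k ∈ G, sgn i k

/-- the contribution of the private children -/
noncomputable def c2 (i : ℕ) (K C : Finset P) : ℤ :=
  ∑ t ∈ I2' i K C, sgn i t.1.2 * sgn i t.2

lemma mem_KD {C : Finset P} {k : P} :
    k ∈ KD i K C ↔ k ∈ K ∧ k ∈ C ∧ k ∈ dbL P i ∪ dbU P i := by
  unfold KD
  rw [mem_inter, mem_inter, and_assoc]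

lemma mem_I2' {C : Finset P} {z y k : P} : ((z, y), k) ∈ I2' i K C ↔
    z ∈ C ∧ Pvt i z y ∧ k ∈ KD i K C ∧ Disjoint (ns i y) (ns i k) := by
  classical
  unfold I2'
  rw [mem_filter, mem_product, mem_product]
  constructor
  · rintro ⟨⟨⟨h1, h2⟩, h3⟩, h4, h5⟩
    exact ⟨h1, h4, h3, h5⟩
  · rintro ⟨h1, h2, h3, h4⟩
    exact ⟨⟨⟨h1, h2.mem⟩, h3⟩, h2, h4⟩

lemma indK_inj {F G : Finset P} (h : indK F = indK G) : F = G := by
  ext x
  constructor
  · intro hx
    apply indK_pos
    rw [← h, indK_one hx]
    exact one_pos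
  · intro hx
    apply indK_pos
    rw [h, indK_one hx]
    exact one_pos

/-- the sites of a double near element of a part are in the part -/
lemma ns_sub {C : Finset P} (hC : Part (i + 1) C) (H : Gr P r) {k : P}
    (hk : k ∈ dbL P i ∪ dbU P i) (hkC : k ∈ C) : ns i k ⊆ st i C := by
  intro x hx
  have hl := lev_ns H hk hx
  rw [mem_st]
  refine ⟨?_, hl⟩
  rcases mem_union.1 hk with h | h
  · rw [ns_L h] at hx
    exact hC.up hkC (mem_uc.1 hx)
  · rw [ns_U h] at hx
    have := (mem_dbU.1 h).1
    exact hC.dn hkC (by omega) (mem_dc.1 hx)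

/-- the double with the private child is in the part -/
lemma Pvt.mem_C {C : Finset P} (hC : Part (i + 1) C) {z y : P} (h : Pvt i z y) (hz : z ∈ C) :
    y ∈ C := by
  rcases h with ⟨-, h2, -⟩ | ⟨h1, h2, -⟩
  · have h3 : y ∈ uc z := by rw [h2]; exact mem_singleton_self _
    exact hC.up hz (mem_uc.1 h3)
  · have h3 : y ∈ dc z := by rw [h2]; exact mem_singleton_self _
    exact hC.dn hz (by omega) (mem_dc.1 h3)

lemma mem_I1 {C : Finset P} (hC : Part (i + 1) C) (H : Gr P r) {G : Finset P}
    (h : G ∈ I1 i K C) : ∃ k k' q, G = {k, k'} ∧ k ≠ k' ∧ k ∈ KD i K C ∧ k' ∈ KD i K C ∧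
      cm i C G = {q} ∧ ns i k ∩ ns i k' = {q} ∧ lev q = i ∧ q ∈ C := by
  unfold I1 at h
  rw [mem_filter, mem_powersetCard] at h
  obtain ⟨⟨h1, h2⟩, h3⟩ := h
  obtain ⟨k, k', hne, rfl⟩ := Finset.card_eq_two.1 h2
  obtain ⟨q, hqq⟩ := Finset.card_eq_one.1 h3
  have hk := h1 (mem_insert_self _ _)
  have hk' := h1 (mem_insert_of_mem (mem_singleton_self _))
  have hcm : cm i C {k, k'} = ns i k ∩ ns i k' := by
    ext x
    unfold cm
    rw [mem_filter, mem_inter]
    constructor
    · rintro ⟨-, h4⟩
      exact ⟨h4 k (mem_insert_self _ _), h4 k' (mem_insert_of_mem (mem_singleton_self _))⟩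
    · rintro ⟨h4, h5⟩
      refine ⟨ns_sub hC H (mem_KD.1 hk).2.2 (mem_KD.1 hk).2.1 h4, ?_⟩
      intro t ht
      rw [mem_insert, mem_singleton] at ht
      rcases ht with rfl | rfl <;> assumption
  have hq1 : q ∈ st i C := by
    have h4 : q ∈ cm i C {k, k'} := by rw [hqq]; exact mem_singleton_self _
    unfold cm at h4
    exact (mem_filter.1 h4).1
  rw [mem_st] at hq1
  exact ⟨k, k', q, rfl, hne, hk, hk', hqq, by rw [← hcm, hqq], hq1.2, hq1.1⟩

section main

variable (H : Gr P r) (hir : i ≤ r) (hq : NoQ P (i + 2)) (hg : ∀ m, m + 1 = i → Good P m)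
include H hir hq hg

/-- THE SUM OVER THE CONFIGURATIONS OF ENERGY THREE OF A STAR COMPONENT -/
theorem ZC_three (hM : Mat P i K psi) {C : Finset P} (hK : Star i C K) (hC : Part (i + 1) C)
    (hb : 1 ≤ (st i C).card) :
    dd ^ ((st i C).card - 1) ∣ ZC i C 3 -
      ((c1 i K C + c2 i K C : ℤ) : A) * dd ^ ((st i C).card - 2) := by
  classical
  have hC' : Part i C := ⟨fun h1 h2 => hC.up h1 h2, fun h1 h2 h3 => hC.dn h1 (by omega) h3⟩
  obtain ⟨Ω, hΩ⟩ : ∃ Ω : Finset (P → ℕ), Ω = C.piAntidiag 3 := ⟨_, rfl⟩
  have mΩ : ∀ e : P → ℕ, e ∈ Ω ↔ ∑ x, e x = 3 ∧ Spt C e := by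
    intro e
    rw [hΩ, mem_pa]
  -- the classes
  have hsplit : ZC i C 3 =
      ∑ e ∈ Ω.filter (fun e => SK i K psi e ≠ ∅), tC i C e +
      (∑ e ∈ (Ω.filter (fun e => ¬ SK i K psi e ≠ ∅)).filter (fun e => OnD i e), tC i C e +
      (∑ e ∈ ((Ω.filter (fun e => ¬ SK i K psi e ≠ ∅)).filter (fun e => ¬ OnD i e)).filter
        (fun e => ∃ q, lev q = i ∧ 1 ≤ e q), tC i C e +
      ∑ e ∈ ((Ω.filter (fun e => ¬ SK i K psi e ≠ ∅)).filter (fun e => ¬ OnD i e)).filter
        (fun e => ¬ ∃ q, lev q = i ∧ 1 ≤ e q), tC i C e)) := by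
    rw [Finset.sum_filter_add_sum_filter_not, Finset.sum_filter_add_sum_filter_not,
      Finset.sum_filter_add_sum_filter_not]
    unfold ZC
    rw [hΩ]
  have small : ∀ e : P → ℕ, (AdmL i e → AdmU i e → Disjoint (AL i e) (AU i e) →
      ¬ pL i e + pU i e + 2 ≤ (AL i e).card + (AU i e).card) →
      dd ^ ((st i C).card - 1) ∣ tC i C e := by
    intro e h
    have h3 := VA_tC_dvd (i := i) (e := e) (C := C) (m := (st i C).card - 1) (n := 1) (k := 0)
      (by omega) (by
      intro hL hU hd
      have := h hL hU hd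
      omega)
    rwa [pow_zero, mul_one] at h3
  -- simple edges
  have s1 : dd ^ ((st i C).card - 1) ∣ ∑ e ∈ Ω.filter (fun e => SK i K psi e ≠ ∅), tC i C e := by
    refine sum_SK H hir hq hg hM hK hb ?_ ?_ ?_
    · intro e he
      rw [mem_filter, mΩ] at he
      exact he.1
    · intro e he y hy
      rw [mem_filter, mΩ] at he ⊢
      refine ⟨⟨by rw [sum_sw]; exact he.1.1, spt_sw hM H hC he.1.2 hy⟩, ?_⟩
      rw [SK_sw hM H hy]
      exact he.2
    · intro e he
      rw [mem_filter] at he
      exact he.2
  -- double near elements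
  have s2 : dd ^ ((st i C).card - 1) ∣
      ∑ e ∈ (Ω.filter (fun e => ¬ SK i K psi e ≠ ∅)).filter (fun e => OnD i e), tC i C e := by
    refine sum_onD H hir hq hg hM hK hC hb ?_
    intro e
    rw [mem_filter, mem_filter, mΩ, not_not]
    tauto
  -- an excited site
  have s3 : dd ^ ((st i C).card - 1) ∣
      ∑ e ∈ ((Ω.filter (fun e => ¬ SK i K psi e ≠ ∅)).filter (fun e => ¬ OnD i e)).filter
        (fun e => ∃ q, lev q = i ∧ 1 ≤ e q), tC i C e -
      ((c1 i K C : ℤ) : A) * dd ^ ((st i C).card - 2) := by
    unfold c1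
    refine sum_list (I1 i K C) (fun G => indK (cm i C G ∪ G)) _ _ ?_ ?_ ?_ ?_
    · intro G hG
      obtain ⟨k, k', q, rfl, hne, hk, hk', hcm, hns, hql, hqC⟩ := mem_I1 hC H hG
      rw [mem_KD] at hk hk'
      have hF : cm i C {k, k'} ∪ {k, k'} = ({q, k, k'} : Finset P) := by
        rw [hcm]
        rfl
      rw [hF, mem_filter, mem_filter, mem_filter, mΩ, not_not]
      have hkq : q ≠ k := by
        rintro rfl
        rcases mem_DD.1 hk.2.2 with h | h <;> omega
      have hkq' : q ≠ k' := by
        rintro rfl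
        rcases mem_DD.1 hk'.2.2 with h | h <;> omega
      have hcard : ({q, k, k'} : Finset P).card = 3 := by
        rw [card_insert_of_notMem, card_pair hne]
        rw [mem_insert, mem_singleton]
        tauto
      refine ⟨⟨⟨⟨by rw [sum_indK, hcard], spt_indK ?_⟩, SK_one hM hk.1 hk'.1 hql⟩, ?_⟩, q, hql, ?_⟩
      · intro x hx
        rw [mem_insert, mem_insert, mem_singleton] at hx
        rcases hx with rfl | rfl | rfl
        · exact hqC
        · exact hk.2.1
        · exact hk'.2.1
      · intro h
        have h1 := h q (by rw [indK_one (mem_insert_self _ _)])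
        rcases mem_DD.1 h1 with h | h <;> omega
      · rw [indK_one (mem_insert_self _ _)]
    · intro G hG G' hG' h
      have h1 := indK_inj h
      have key : ∀ {G : Finset P}, G ∈ I1 i K C → G = (cm i C G ∪ G).filter (fun x => lev x ≠ i) := by
        intro G hG
        obtain ⟨k, k', q, rfl, hne, hk, hk', hcm, hns, hql, hqC⟩ := mem_I1 hC H hG
        rw [mem_KD] at hk hk'
        ext x
        rw [mem_filter, mem_union, hcm, mem_singleton]
        constructor
        · intro hx
          refine ⟨Or.inr hx, ?_⟩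
          rw [mem_insert, mem_singleton] at hx
          rcases hx with rfl | rfl
          · rcases mem_DD.1 hk.2.2 with h | h <;> omega
          · rcases mem_DD.1 hk'.2.2 with h | h <;> omega
        · rintro ⟨rfl | hx, h2⟩
          · exact absurd hql h2
          · exact hx
      rw [key hG, h1, ← key hG']
    · intro G hG
      obtain ⟨k, k', q, rfl, hne, hk, hk', hcm, hns, hql, hqC⟩ := mem_I1 hC H hG
      rw [mem_KD] at hk hk'
      have hF : cm i C {k, k'} ∪ {k, k'} = ({q, k, k'} : Finset P) := by
        rw [hcm]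
        rfl
      rw [hF, prod_pair hne]
      refine lead_one H hir hC' hk.2.2 hk'.2.2 hne hns ?_
      intro x hx
      rw [mem_insert, mem_insert, mem_singleton] at hx
      rcases hx with rfl | rfl | rfl
      · exact hqC
      · exact hk.2.1
      · exact hk'.2.1
    · intro e he hno
      rw [mem_filter, mem_filter, mem_filter, mΩ, not_not] at he
      obtain ⟨⟨⟨⟨h3, hs⟩, hSK⟩, -⟩, q, hql, hq1⟩ := he
      refine small e ?_
      intro hL hU hd ho
      obtain ⟨k, k', hk, hk', hne, hkD, hkD', hns, he⟩ :=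
        class_one H hir hq hg hM hK hs hL hU hd hSK h3 ho hql hq1
      have hCe : ∀ x, x ∈ ({q, k, k'} : Finset P) → x ∈ C := by
        intro x hx
        by_contra h
        have := hs x h
        rw [he, indK_one hx] at this
        omega
      have hkC := hCe k (mem_insert_of_mem (mem_insert_self _ _))
      have hkC' := hCe k' (mem_insert_of_mem (mem_insert_of_mem (mem_singleton_self _)))
      have hcm : cm i C {k, k'} = {q} := by
        rw [← hns]
        ext x
        unfold cm
        rw [mem_filter, mem_inter]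
        constructor
        · rintro ⟨-, h4⟩
          exact ⟨h4 k (mem_insert_self _ _), h4 k' (mem_insert_of_mem (mem_singleton_self _))⟩
        · rintro ⟨h4, h5⟩
          refine ⟨ns_sub hC H hkD hkC h4, ?_⟩
          intro t ht
          rw [mem_insert, mem_singleton] at ht
          rcases ht with rfl | rfl <;> assumption
      refine hno {k, k'} ?_ ?_
      · unfold I1
        rw [mem_filter, mem_powersetCard, hcm, card_singleton]
        refine ⟨⟨?_, card_pair hne⟩, rfl⟩
        intro x hx
        rw [mem_insert, mem_singleton] at hx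
        rcases hx with rfl | rfl
        · exact mem_KD.2 ⟨hk, hkC, hkD⟩
        · exact mem_KD.2 ⟨hk', hkC', hkD'⟩
      · rw [he, hcm]
        rfl
  -- a private child
  have s4 : dd ^ ((st i C).card - 1) ∣
      ∑ e ∈ ((Ω.filter (fun e => ¬ SK i K psi e ≠ ∅)).filter (fun e => ¬ OnD i e)).filter
        (fun e => ¬ ∃ q, lev q = i ∧ 1 ≤ e q), tC i C e -
      ((c2 i K C : ℤ) : A) * dd ^ ((st i C).card - 2) := by
    unfold c2
    refine sum_list (I2' i K C) (fun t => indK {t.1.1, t.1.2, t.2}) _ _ ?_ ?_ ?_ ?_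
    · rintro ⟨⟨z, y⟩, k⟩ ht
      obtain ⟨hz, hp, hk, hdis⟩ := mem_I2'.1 ht
      rw [mem_KD] at hk
      have hy := hp.mem_C hC hz
      have hzl : lev z = i + 2 ∨ lev z + 2 = i := by
        rcases hp with h | h
        · exact Or.inl h.1
        · exact Or.inr h.1
      have hyl := mem_DD.1 hp.mem
      have hkl := mem_DD.1 hk.2.2
      have hyk : y ≠ k := by
        rintro rfl
        rw [disjoint_self] at hdis
        have h1 := ns_card hk.2.2
        rw [hdis] at h1
        simp at h1
      have hzy : z ≠ y := by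
        rintro rfl
        rcases hyl with h | h <;> rcases hzl with h' | h' <;> omega
      have hzk : z ≠ k := by
        rintro rfl
        rcases hkl with h | h <;> rcases hzl with h' | h' <;> omega
      have hcard : ({z, y, k} : Finset P).card = 3 := by
        rw [card_insert_of_notMem, card_pair hyk]
        rw [mem_insert, mem_singleton]
        tauto
      rw [mem_filter, mem_filter, mem_filter, mΩ, not_not]
      refine ⟨⟨⟨⟨by rw [sum_indK, hcard], spt_indK ?_⟩,
        SK_two hM hK hp hk.2.2 hk.1 hdis⟩, ?_⟩, ?_⟩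
      · intro x hx
        rw [mem_insert, mem_insert, mem_singleton] at hx
        rcases hx with rfl | rfl | rfl
        · exact hz
        · exact hy
        · exact hk.2.1
      · intro h
        have h1 := mem_DD.1 (h z (by rw [indK_one (mem_insert_self _ _)]))
        rcases h1 with h | h <;> rcases hzl with h' | h' <;> omega
      · rintro ⟨q, hql, hq1⟩
        have h1 : q ∈ ({z, y, k} : Finset P) := indK_pos (lt_of_lt_of_le one_pos hq1)
        rw [mem_insert, mem_insert, mem_singleton] at h1
        rcases h1 with rfl | rfl | rfl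
        · rcases hzl with h' | h' <;> omega
        · rcases hyl with h' | h' <;> omega
        · rcases hkl with h' | h' <;> omega
    · rintro ⟨⟨z, y⟩, k⟩ ht ⟨⟨z', y'⟩, k'⟩ ht' h
      obtain ⟨hz, hp, hk, hdis⟩ := mem_I2'.1 ht
      obtain ⟨hz', hp', hk', hdis'⟩ := mem_I2'.1 ht'
      rw [mem_KD] at hk hk'
      have h1 : ({z, y, k} : Finset P) = {z', y', k'} := indK_inj h
      have hzl : lev z = i + 2 ∨ lev z + 2 = i := by
        rcases hp with h | h
        · exact Or.inl h.1
        · exact Or.inr h.1
      have hyl := mem_DD.1 hp.mem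
      have hkl := mem_DD.1 hk.2.2
      have hyl' := mem_DD.1 hp'.mem
      have hkl' := mem_DD.1 hk'.2.2
      have hyk : y ≠ k := by
        rintro rfl
        rw [disjoint_self] at hdis
        have h1 := ns_card hk.2.2
        rw [hdis] at h1
        simp at h1
      have e1 : z = z' := by
        have h2 : z ∈ ({z', y', k'} : Finset P) := by rw [← h1]; exact mem_insert_self _ _
        rw [mem_insert, mem_insert, mem_singleton] at h2
        rcases h2 with h2 | h2 | h2
        · exact h2
        · rw [h2] at hzl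
          rcases hyl' with h | h <;> rcases hzl with h' | h' <;> omega
        · rw [h2] at hzl
          rcases hkl' with h | h <;> rcases hzl with h' | h' <;> omega
      subst e1
      have e2 : y = y' := by
        rcases hp with ⟨a1, a2, -⟩ | ⟨a1, a2, -⟩ <;> rcases hp' with ⟨b1, b2, -⟩ | ⟨b1, b2, -⟩
        · rw [a2] at b2
          exact singleton_injective b2
        · omega
        · omega
        · rw [a2] at b2
          exact singleton_injective b2
      subst e2
      have e3 : k = k' := by
        have h2 : k ∈ ({z, y, k'} : Finset P) := by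
          rw [← h1]
          exact mem_insert_of_mem (mem_insert_of_mem (mem_singleton_self _))
        rw [mem_insert, mem_insert, mem_singleton] at h2
        rcases h2 with h2 | h2 | h2
        · rw [h2] at hkl
          rcases hkl with h | h <;> rcases hzl with h' | h' <;> omega
        · exact absurd h2.symm hyk
        · exact h2
      rw [e3]
    · rintro ⟨⟨z, y⟩, k⟩ ht
      obtain ⟨hz, hp, hk, hdis⟩ := mem_I2'.1 ht
      rw [mem_KD] at hk
      refine lead_two H hir hC' hp hk.2.2 hdis ?_
      intro x hx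
      rw [mem_insert, mem_insert, mem_singleton] at hx
      rcases hx with rfl | rfl | rfl
      · exact hz
      · exact hp.mem_C hC hz
      · exact hk.2.1
    · intro e he hno
      rw [mem_filter, mem_filter, mem_filter, mΩ, not_not] at he
      obtain ⟨⟨⟨⟨h3, hs⟩, hSK⟩, hnD⟩, hns⟩ := he
      push Not at hns
      unfold OnD at hnD
      push Not at hnD
      obtain ⟨z, hz1, hzD⟩ := hnD
      refine small e ?_
      intro hL hU hd ho
      obtain ⟨y, k, hp, hk, hkD, hdis, he⟩ :=
        class_two H hir hq hg hM hK hs hL hU hd hSK h3 ho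
          (fun x hx => by have := hns x hx; omega) hz1 hzD
      have hCe : ∀ x, x ∈ ({z, y, k} : Finset P) → x ∈ C := by
        intro x hx
        by_contra h
        have := hs x h
        rw [he, indK_one hx] at this
        omega
      refine hno ((z, y), k) ?_ he.symm
      rw [mem_I2', mem_KD]
      exact ⟨hCe z (mem_insert_self _ _), hp, ⟨hk,
        hCe k (mem_insert_of_mem (mem_insert_of_mem (mem_singleton_self _))), hkD⟩, hdis⟩
  rw [hsplit]
  have h5 := dvd_add s1 (dvd_add s2 (dvd_add s3 s4))
  convert h5 using 1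
  rw [Int.cast_add]
  ring

/-- THE VALUE OF `w3` -/
theorem w3_ZC (hM : Mat P i K psi) {C : Finset P} (hK : Star i C K) (hC : Part (i + 1) C)
    (hb : 2 ≤ (st i C).card) :
    PowerSeries.coeff (st i C).card (dd ^ 2 * ZC i C 3) = c1 i K C + c2 i K C :=
  coeff_of_dvd hb (ZC_three H hir hq hg hM hK hC (by omega))

/-- THE VALUE OF `w3` of the window series of a component -/
theorem w3_VV {ι : Type*} [DecidableEq ι] {κ : P → ι} (hκ : Split (i + 1) κ)
    (hM : Mat P i K psi) (a : ι) (hK : Star i (cext (i + 1) κ a) K)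
    (hb : 2 ≤ bb i (i + 1) κ a) :
    w3 (bb i (i + 1) κ a) (VV i (i + 1) κ a) =
      c1 i K (cext (i + 1) κ a) + c2 i K (cext (i + 1) κ a) := by
  unfold w3 VV
  rw [coeff_ZS]
  exact w3_ZC H hir hq hg hM hK (part_cext H le_rfl hκ a) hb

end main

/-- the contribution of the pairs for two elements of `K` with one common site -/
theorem c1_pair (H : Gr P r) {C : Finset P} (hC : Part (i + 1) C) {w u q : P}
    (hK : KD i K C = {w, u}) (hne : w ≠ u) (hns : ns i w ∩ ns i u = {q}) :
    c1 i K C = sgn i w * sgn i u := by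
  have hw : w ∈ KD i K C := by rw [hK]; exact mem_insert_self _ _
  have hu : u ∈ KD i K C := by rw [hK]; exact mem_insert_of_mem (mem_singleton_self _)
  rw [mem_KD] at hw hu
  have hcm : cm i C {w, u} = {q} := by
    rw [← hns]
    ext x
    unfold cm
    rw [mem_filter, mem_inter]
    constructor
    · rintro ⟨-, h4⟩
      exact ⟨h4 w (mem_insert_self _ _), h4 u (mem_insert_of_mem (mem_singleton_self _))⟩
    · rintro ⟨h4, h5⟩
      refine ⟨ns_sub hC H hw.2.2 hw.2.1 h4, ?_⟩
      intro t ht
      rw [mem_insert, mem_singleton] at ht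
      rcases ht with rfl | rfl <;> assumption
  have h1 : I1 i K C = {{w, u}} := by
    unfold I1
    rw [hK]
    have h2 : ({w, u} : Finset P).powersetCard 2 = {{w, u}} := by
      rw [← card_pair hne]
      exact powersetCard_self _
    rw [h2, filter_singleton, hcm, card_singleton, if_pos rfl]
  unfold c1
  rw [h1, sum_singleton, prod_pair hne]

end Pool.Agent.GaussPoset.Win.K2
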