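import Pool.Agent.W_448sk_h15.IFK
import Pool.Agent.W_448so_h63.GE
import Pool.Agent.W_448kk_h94.KkD

/-!
The value of `w3` of a star component (MP_448cb3_co, case B), part A: the term of a configuration
up to the order two, configurations with labels at most one, the part with simple edges.
-/

namespace Pool.Agent.GaussPoset.Win.K2

set_option linter.unusedSectionVars false

open Finset I2

universe u

variable {P : Type u} [Fintype P] [PartialOrder P] [DecidableEq P] {r i : ℕ} {e : P → ℕ}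

/-- the term of an admissible configuration -/
lemma tC_eq {C : Finset P} (hA : AdmL i e) (hB : AdmU i e) (hd : Disjoint (AL i e) (AU i e)) :
    tC i C e = dd ^ (pL i e + pU i e + ((st i C).card - (AL i e).card - (AU i e).card)) *
      (xx ^ aL i e * xi ^ (aU i e + pU i e) * xx ^ (AL i e).card) := by
  unfold tC
  rw [if_pos hd]
  unfold cw
  rw [if_pos ⟨hA, hB⟩, pow_add dd]
  ring

/-- a configuration of order at most `n` -/
lemma VA_tC_dvd {C : Finset P} {m n k : ℕ} (hm : m + n ≤ (st i C).card + k)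
    (h : AdmL i e → AdmU i e → Disjoint (AL i e) (AU i e) →
      (AL i e).card + (AU i e).card ≤ pL i e + pU i e + n) : dd ^ m ∣ tC i C e * dd ^ k := by
  by_cases hd : Disjoint (AL i e) (AU i e)
  · by_cases hA : AdmL i e ∧ AdmU i e
    · have h1 := h hA.1 hA.2 hd
      rw [tC_eq hA.1 hA.2 hd, mul_right_comm, ← pow_add]
      exact Dvd.dvd.mul_right (pow_dvd_pow _ (by omega)) _
    · unfold tC
      rw [if_pos hd]
      unfold cw
      rw [if_neg hA, zero_mul, zero_mul]
      exact dvd_zero _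
  · unfold tC
    rw [if_neg hd, zero_mul]
    exact dvd_zero _

/-- the leading coefficient of a configuration of order two -/
lemma tC_lead {C : Finset P} (hA : AdmL i e) (hB : AdmU i e) (hd : Disjoint (AL i e) (AU i e))
    (ho : (AL i e).card + (AU i e).card = pL i e + pU i e + 2)
    (hb : (AL i e).card + (AU i e).card ≤ (st i C).card) :
    dd ^ ((st i C).card - 1) ∣ tC i C e -
      (((-1 : ℤ) ^ (aL i e + aU i e + pU i e + (AL i e).card) : ℤ) : A) *
        dd ^ ((st i C).card - 2) := by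
  have h1 : pL i e + pU i e + ((st i C).card - (AL i e).card - (AU i e).card) =
      (st i C).card - 2 := by omega
  have h2 : (st i C).card - 1 = (st i C).card - 2 + 1 := by omega
  rw [tC_eq hA hB hd, h1, h2, mul_comm ((((-1 : ℤ) ^ _ : ℤ)) : A), ← mul_sub, pow_succ]
  refine mul_dvd_mul_left _ ?_
  unfold dd
  rw [PowerSeries.X_dvd_iff, map_sub, map_mul, map_mul, map_pow, map_pow, map_pow, cc_xx, cc_xi]
  have h6 : ∀ n : ℕ, PowerSeries.constantCoeff ((((-1 : ℤ) ^ n : ℤ)) : A) = (-1 : ℤ) ^ n := by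
    intro n
    rw [map_intCast]
    simp
  rw [h6]
  ring

/-- the leading coefficient -/
lemma coeff_of_dvd {b : ℕ} (hb : 2 ≤ b) {X : A} {c : ℤ}
    (h : dd ^ (b - 1) ∣ X - (c : A) * dd ^ (b - 2)) : PowerSeries.coeff b (dd ^ 2 * X) = c := by
  obtain ⟨R, hR⟩ := h
  have h1 : dd ^ 2 * X = (c : A) * dd ^ b + dd ^ (b + 1) * R := by
    have h2 : X = (c : A) * dd ^ (b - 2) + dd ^ (b - 1) * R := by rw [← hR]; ring
    rw [h2]
    obtain ⟨m, rfl⟩ : ∃ m, b = m + 2 := ⟨b - 2, by omega⟩
    simp only [Nat.add_sub_cancel]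
    rw [show m + 2 - 1 = m + 1 by omega]
    ring
  rw [h1, map_add]
  have h3 : PowerSeries.coeff b ((c : A) * dd ^ b) = c := by
    unfold dd
    rw [PowerSeries.coeff_mul_X_pow', if_pos le_rfl, Nat.sub_self,
      PowerSeries.coeff_zero_eq_constantCoeff, map_intCast]
    simp
  have h4 : PowerSeries.coeff b (dd ^ (b + 1) * R) = 0 := by
    unfold dd
    rw [PowerSeries.coeff_X_pow_mul', if_neg (by omega)]
  rw [h3, h4, add_zero]

section simple

variable {K : Finset P} {psi : P → P} {C : Finset P}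

/-- the configurations of energy three with simple edges -/
theorem sum_SK (H : Gr P r) (hir : i ≤ r) (hq : NoQ P (i + 2))
    (hg : ∀ m, m + 1 = i → Good P m) (hM : Mat P i K psi) (hK : Star i C K)
    (hb : 1 ≤ (st i C).card) {Ω : Finset (P → ℕ)} (hΩ : ∀ e ∈ Ω, ∑ x, e x = 3 ∧ Spt C e)
    (hsw : ∀ e ∈ Ω, ∀ y ∈ SK i K psi e, sw psi y e ∈ Ω)
    (hne : ∀ e ∈ Ω, SK i K psi e ≠ ∅) :
    dd ^ ((st i C).card - 1) ∣ ∑ e ∈ Ω, tC i C e := by
  refine class_dvd hM H hsw ?_
  intro e he
  have h1 : 1 ≤ (SK i K psi e).card := by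
    rw [Nat.one_le_iff_ne_zero]
    intro h
    exact hne e he (card_eq_zero.1 h)
  refine VA_tC_dvd (n := (SK i K psi e).card + 1) (by omega) ?_
  intro hA hB hd
  have h2 := K_bound H hir hq hg hM hK (hΩ e he).2 hA hB hd (δ := 0) (Or.inl rfl)
  rw [(hΩ e he).1] at h2
  omega

end simple

end Pool.Agent.GaussPoset.Win.K2
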