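import Pool.Agent.W_448v_h15.VA

/-!
The value of `w3` of a star component (MP_448cb3_co, case B), part B: the configurations
`k + k' + q` and `z + y + k`.
-/

namespace Pool.Agent.GaussPoset.Win.K2

set_option linter.unusedSectionVars false

open Finset I2

universe u

variable {P : Type u} [Fintype P] [PartialOrder P] [DecidableEq P] {r i : ℕ}

lemma indK_one {F : Finset P} {x : P} (h : x ∈ F) : indK F x = 1 := by
  unfold indK
  rw [if_pos h]

lemma indK_zero {F : Finset P} {x : P} (h : x ∉ F) : indK F x = 0 := by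
  unfold indK
  rw [if_neg h]

lemma indK_pos {F : Finset P} {x : P} (h : 0 < indK F x) : x ∈ F := by
  by_contra h'
  rw [indK_zero h'] at h
  omega

lemma indK_le {F : Finset P} (x : P) : indK F x ≤ 1 := by
  unfold indK
  split_ifs <;> omega

lemma sum_indK (F : Finset P) : ∑ x, indK F x = F.card := by
  unfold indK
  simp

lemma spt_indK {F C : Finset P} (h : F ⊆ C) : Spt C (indK F) :=
  fun _ hx => indK_zero fun h' => hx (h h')

/-- closed on both sides -/
structure Cl (i : ℕ) (F : Finset P) : Prop where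
  lo : ∀ x ∈ F, ∀ y ∈ uc x, i < lev y → y ∈ F
  up : ∀ x ∈ F, ∀ y ∈ dc x, lev y < i → y ∈ F

section ind

variable {F : Finset P}

lemma Cl.FD (hc : Cl i F) {x : P} (hx : i < lev x) : ¬ FD (indK F) x := by
  rintro ⟨z, hz, hlt⟩
  have h1 := indK_pos (F := F) (x := z) (by omega)
  have h2 := hc.lo z h1 x (mem_uc.2 hz) hx
  rw [indK_one h1, indK_one h2] at hlt
  omega

lemma Cl.FU (hc : Cl i F) {x : P} (hx : lev x < i) : ¬ FU (indK F) x := by
  rintro ⟨z, hz, hlt⟩
  have h1 := indK_pos (F := F) (x := z) (by omega)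
  have h2 := hc.up z h1 x (mem_dc.2 hz) hx
  rw [indK_one h1, indK_one h2] at hlt
  omega

lemma Cl.admL (hc : Cl i F) : AdmL i (indK F) := fun _ hz h => hc.FD hz h.1

lemma Cl.admU (hc : Cl i F) : AdmU i (indK F) := fun _ hz h => hc.FU hz h.1

lemma Cl.aL (hc : Cl i F) : aL i (indK F) = 0 := by
  classical
  unfold Win.aL
  rw [card_eq_zero, filter_eq_empty_iff]
  rintro x _ ⟨h1, h2⟩
  exact hc.FD h1 h2

lemma Cl.aU (hc : Cl i F) : aU i (indK F) = 0 := by
  classical
  unfold Win.aU
  rw [card_eq_zero, filter_eq_empty_iff]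
  rintro x _ ⟨h1, h2⟩
  exact hc.FU h1 h2

lemma Cl.pL (H : Gr P r) (hc : Cl i F) :
    pL i (indK F) = (F.filter (fun z => i < lev z ∧ ∀ y ∈ uc z, y ∉ F)).card := by
  classical
  unfold Win.pL
  congr 1
  ext z
  simp only [mem_filter, mem_univ, true_and]
  constructor
  · rintro ⟨h1, -, h3⟩
    have h4 : z ∈ F := by
      by_contra h4
      obtain ⟨y, hy⟩ := uc_nonempty H (x := z) (by omega)
      exact h3 ⟨y, mem_uc.1 hy, by rw [indK_zero h4]; exact Nat.zero_le _⟩
    refine ⟨h4, h1, ?_⟩
    intro y hy hyF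
    exact h3 ⟨y, mem_uc.1 hy, by rw [indK_one h4, indK_one hyF]⟩
  · rintro ⟨h1, h2, h3⟩
    refine ⟨h2, hc.FD h2, ?_⟩
    rintro ⟨y, hy, hle⟩
    rw [indK_one h1, indK_zero (h3 y (mem_uc.2 hy))] at hle
    omega

lemma Cl.pU (H : Gr P r) (hir : i ≤ r) (hc : Cl i F) :
    pU i (indK F) = (F.filter (fun z => lev z < i ∧ ∀ y ∈ dc z, y ∉ F)).card := by
  classical
  unfold Win.pU
  congr 1
  ext z
  simp only [mem_filter, mem_univ, true_and]
  constructor
  · rintro ⟨h1, -, h3⟩
    have h4 : z ∈ F := by
      by_contra h4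
      obtain ⟨y, hy⟩ := dc_nonempty H (x := z) (by omega)
      exact h3 ⟨y, mem_dc.1 hy, by rw [indK_zero h4]; exact Nat.zero_le _⟩
    refine ⟨h4, h1, ?_⟩
    intro y hy hyF
    exact h3 ⟨y, mem_dc.1 hy, by rw [indK_one h4, indK_one hyF]⟩
  · rintro ⟨h1, h2, h3⟩
    refine ⟨h2, hc.FU h2, ?_⟩
    rintro ⟨y, hy, hle⟩
    rw [indK_one h1, indK_zero (h3 y (mem_dc.2 hy))] at hle
    omega

lemma mem_AL_ind {v : P} : v ∈ AL i (indK F) ↔ lev v = i ∧ v ∉ F ∧ ∃ x ∈ F, v ∈ uc x := by
  rw [NormD_mem_AL]
  constructor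
  · rintro ⟨h1, x, hx, hlt⟩
    have h2 := indK_pos (F := F) (x := x) (by omega)
    refine ⟨h1, ?_, x, h2, mem_uc.2 hx⟩
    intro h3
    rw [indK_one h2, indK_one h3] at hlt
    omega
  · rintro ⟨h1, h2, x, hx, hxv⟩
    exact ⟨h1, x, mem_uc.1 hxv, by rw [indK_one hx, indK_zero h2]; omega⟩

lemma mem_AU_ind {v : P} : v ∈ AU i (indK F) ↔ lev v = i ∧ v ∉ F ∧ ∃ x ∈ F, v ∈ dc x := by
  rw [NormD_mem_AU]
  constructor
  · rintro ⟨h1, x, hx, hlt⟩
    have h2 := indK_pos (F := F) (x := x) (by omega)
    refine ⟨h1, ?_, x, h2, mem_dc.2 hx⟩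
    intro h3
    rw [indK_one h2, indK_one h3] at hlt
    omega
  · rintro ⟨h1, h2, x, hx, hxv⟩
    exact ⟨h1, x, mem_dc.1 hxv, by rw [indK_one hx, indK_zero h2]; omega⟩

end ind

lemma mem_DD {x : P} : x ∈ dbL P i ∪ dbU P i ↔
    (lev x = i + 1 ∧ (uc x).card = 2) ∨ (lev x + 1 = i ∧ (dc x).card = 2) := by
  rw [mem_union, mem_dbL, mem_dbU]

/-- the sites of a double near element are of level `i` -/
lemma lev_ns (H : Gr P r) {x v : P} (hx : x ∈ dbL P i ∪ dbU P i) (hv : v ∈ ns i x) :
    lev v = i := by
  rcases mem_union.1 hx with h | h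
  · rw [ns_L h] at hv
    have h1 := lev_uc H hv
    have h2 := (mem_dbL.1 h).1
    omega
  · rw [ns_U h] at hv
    have h1 := lev_dc H hv
    have h2 := (mem_dbU.1 h).1
    omega

/-- `z` is a private child of the double lower element `y`, or the mirror image -/
def Pvt (i : ℕ) (z y : P) : Prop :=
  (lev z = i + 2 ∧ uc z = {y} ∧ y ∈ dbL P i) ∨ (lev z + 2 = i ∧ dc z = {y} ∧ y ∈ dbU P i)

lemma Pvt.mem {z y : P} (h : Pvt i z y) : y ∈ dbL P i ∪ dbU P i := by
  rcases h with h | h
  · exact mem_union_left _ h.2.2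
  · exact mem_union_right _ h.2.2

section two

variable {z y k : P}

lemma cl_two (H : Gr P r) (h : Pvt i z y) (hk : k ∈ dbL P i ∪ dbU P i) :
    Cl i ({z, y, k} : Finset P) := by
  have near : ∀ x ∈ ({y, k} : Finset P), lev x = i + 1 ∨ lev x + 1 = i := by
    intro x hx
    rw [mem_insert, mem_singleton] at hx
    have h1 := mem_DD.1 h.mem
    have h2 := mem_DD.1 hk
    rcases hx with rfl | rfl
    · rcases h1 with h1 | h1
      · exact Or.inl h1.1
      · exact Or.inr h1.1
    · rcases h2 with h1 | h1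
      · exact Or.inl h1.1
      · exact Or.inr h1.1
  constructor
  · intro x hx t ht hlt
    have h1 := lev_uc H ht
    rw [mem_insert] at hx
    rcases hx with rfl | hx
    · rcases h with ⟨h2, h3, -⟩ | ⟨h2, -, -⟩
      · rw [h3, mem_singleton] at ht
        rw [ht]
        exact mem_insert_of_mem (mem_insert_self _ _)
      · omega
    · rcases near x hx with h2 | h2 <;> omega
  · intro x hx t ht hlt
    have h1 := lev_dc H ht
    rw [mem_insert] at hx
    rcases hx with rfl | hx
    · rcases h with ⟨h2, -, -⟩ | ⟨h2, h3, -⟩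
      · omega
      · rw [h3, mem_singleton] at ht
        rw [ht]
        exact mem_insert_of_mem (mem_insert_self _ _)
    · rcases near x hx with h2 | h2 <;> omega

/-- the leading coefficient of `z + y + k` -/
theorem lead_two (H : Gr P r) (hir : i ≤ r) {C : Finset P} (hC : Part i C) (h : Pvt i z y)
    (hk : k ∈ dbL P i ∪ dbU P i) (hd : Disjoint (ns i y) (ns i k))
    (hF : ({z, y, k} : Finset P) ⊆ C) :
    dd ^ ((st i C).card - 1) ∣ tC i C (indK {z, y, k}) -
      ((sgn i y * sgn i k : ℤ) : A) * dd ^ ((st i C).card - 2) := by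
  classical
  have hc := cl_two H h hk
  have hyk : y ≠ k := by
    rintro rfl
    rw [disjoint_self] at hd
    have h1 := ns_card hk
    rw [hd] at h1
    simp at h1
  have hG : ({y, k} : Finset P) ⊆ dbL P i ∪ dbU P i := by
    intro x hx
    rw [mem_insert, mem_singleton] at hx
    rcases hx with rfl | rfl
    · exact h.mem
    · exact hk
  have hDj : Dj i ({y, k} : Finset P) := by
    refine ⟨hG, ?_⟩
    intro a ha b hb hab
    rw [mem_insert, mem_singleton] at ha hb
    rcases ha with rfl | rfl <;> rcases hb with rfl | rfl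
    · exact absurd rfl hab
    · exact hd
    · exact hd.symm
    · exact absurd rfl hab
  have nearz : lev z = i + 2 ∨ lev z + 2 = i := by
    rcases h with h | h
    · exact Or.inl h.1
    · exact Or.inr h.1
  have nosite : ∀ v, lev v = i → v ∉ ({z, y, k} : Finset P) := by
    intro v hv hv'
    rw [mem_insert] at hv'
    rcases hv' with rfl | hv'
    · omega
    · have h1 := mem_DD.1 (hG hv')
      rcases h1 with h1 | h1 <;> omega
  have eAL : AL i (indK {z, y, k}) = (({y, k} : Finset P) ∩ dbL P i).biUnion (ns i) := by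
    ext v
    rw [mem_AL_ind, mem_biUnion]
    constructor
    · rintro ⟨h1, -, x, hx, hv⟩
      have h2 := lev_uc H hv
      have h3 : x ∈ ({y, k} : Finset P) := by
        rw [mem_insert] at hx
        rcases hx with rfl | hx
        · omega
        · exact hx
      have h4 : x ∈ dbL P i := by
        rcases mem_union.1 (hG h3) with h5 | h5
        · exact h5
        · have := (mem_dbU.1 h5).1
          omega
      exact ⟨x, mem_inter.2 ⟨h3, h4⟩, by rw [ns_L h4]; exact hv⟩
    · rintro ⟨x, hx, hv⟩
      rw [mem_inter] at hx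
      have h1 := lev_ns H (hG hx.1) hv
      rw [ns_L hx.2] at hv
      exact ⟨h1, nosite v h1, x, mem_insert_of_mem hx.1, hv⟩
  have eAU : AU i (indK {z, y, k}) = (({y, k} : Finset P) ∩ dbU P i).biUnion (ns i) := by
    ext v
    rw [mem_AU_ind, mem_biUnion]
    constructor
    · rintro ⟨h1, -, x, hx, hv⟩
      have h2 := lev_dc H hv
      have h3 : x ∈ ({y, k} : Finset P) := by
        rw [mem_insert] at hx
        rcases hx with rfl | hx
        · omega
        · exact hx
      have h4 : x ∈ dbU P i := by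
        rcases mem_union.1 (hG h3) with h5 | h5
        · have := (mem_dbL.1 h5).1
          omega
        · exact h5
      exact ⟨x, mem_inter.2 ⟨h3, h4⟩, by rw [ns_U h4]; exact hv⟩
    · rintro ⟨x, hx, hv⟩
      rw [mem_inter] at hx
      have h1 := lev_ns H (hG hx.1) hv
      rw [ns_U hx.2] at hv
      exact ⟨h1, nosite v h1, x, mem_insert_of_mem hx.1, hv⟩
  have epL : pL i (indK {z, y, k}) = (({y, k} : Finset P) ∩ dbL P i).card := by
    rw [hc.pL H]
    congr 1
    ext x
    rw [mem_filter, mem_inter]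
    constructor
    · rintro ⟨hx, h1, h2⟩
      have h3 : x ∈ ({y, k} : Finset P) := by
        rw [mem_insert] at hx
        rcases hx with rfl | hx
        · exfalso
          rcases h with ⟨-, h3, -⟩ | ⟨h3, -, -⟩
          · exact h2 y (by rw [h3]; exact mem_singleton_self _)
              (mem_insert_of_mem (mem_insert_self _ _))
          · omega
        · exact hx
      refine ⟨h3, ?_⟩
      rcases mem_union.1 (hG h3) with h5 | h5
      · exact h5
      · have := (mem_dbU.1 h5).1
        omega
    · rintro ⟨h1, h2⟩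
      have h3 := (mem_dbL.1 h2).1
      refine ⟨mem_insert_of_mem h1, by omega, ?_⟩
      intro v hv
      have h4 := lev_uc H hv
      exact nosite v (by omega)
  have epU : pU i (indK {z, y, k}) = (({y, k} : Finset P) ∩ dbU P i).card := by
    rw [hc.pU H hir]
    congr 1
    ext x
    rw [mem_filter, mem_inter]
    constructor
    · rintro ⟨hx, h1, h2⟩
      have h3 : x ∈ ({y, k} : Finset P) := by
        rw [mem_insert] at hx
        rcases hx with rfl | hx
        · exfalso
          rcases h with ⟨h3, -, -⟩ | ⟨-, h3, -⟩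
          · omega
          · exact h2 y (by rw [h3]; exact mem_singleton_self _)
              (mem_insert_of_mem (mem_insert_self _ _))
        · exact hx
      refine ⟨h3, ?_⟩
      rcases mem_union.1 (hG h3) with h5 | h5
      · have := (mem_dbL.1 h5).1
        omega
      · exact h5
    · rintro ⟨h1, h2⟩
      have h3 := (mem_dbU.1 h2).1
      refine ⟨mem_insert_of_mem h1, by omega, ?_⟩
      intro v hv
      have h4 := lev_dc H hv
      exact nosite v (by omega)
  have cAL : (AL i (indK {z, y, k})).card = 2 * (({y, k} : Finset P) ∩ dbL P i).card := by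
    rw [eAL, Dj_bi_card hDj inter_subset_left]
  have cAU : (AU i (indK {z, y, k})).card = 2 * (({y, k} : Finset P) ∩ dbU P i).card := by
    rw [eAU, Dj_bi_card hDj inter_subset_left]
  have hsum : (({y, k} : Finset P) ∩ dbL P i).card + (({y, k} : Finset P) ∩ dbU P i).card = 2 := by
    rw [← card_union_of_disjoint]
    · rw [← inter_union_distrib_left, inter_eq_left.2 hG, card_pair hyk]
    · rw [disjoint_left]
      intro x h1 h2
      rw [mem_inter] at h1 h2
      have h3 := (mem_dbL.1 h1.2).1
      have h4 := (mem_dbU.1 h2.2).1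
      omega
  have hDis : Disjoint (AL i (indK {z, y, k})) (AU i (indK {z, y, k})) := by
    rw [eAL, eAU, disjoint_left]
    intro x hx hx'
    rw [mem_biUnion] at hx hx'
    obtain ⟨w, hw, hxw⟩ := hx
    obtain ⟨w', hw', hxw'⟩ := hx'
    rw [mem_inter] at hw hw'
    have hne : w ≠ w' := by
      rintro rfl
      have h3 := (mem_dbL.1 hw.2).1
      have h4 := (mem_dbU.1 hw'.2).1
      omega
    exact disjoint_left.1 (hDj.2 w hw.1 w' hw'.1 hne) hxw hxw'
  have h1 := tC_lead (C := C) hc.admL hc.admU hDis (by omega)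
    (card_le_st H hC (spt_indK hF) hDis)
  have h2 : (-1 : ℤ) ^ (aL i (indK {z, y, k}) + aU i (indK {z, y, k}) + pU i (indK {z, y, k}) +
      (AL i (indK {z, y, k})).card) = sgn i y * sgn i k := by
    rw [hc.aL, hc.aU, epU, cAL, zero_add, zero_add, pow_add, pow_mul]
    rw [show ((-1 : ℤ) ^ 2) = 1 by norm_num, one_pow, mul_one, ← prod_sgn, prod_pair hyk]
  rw [h2] at h1
  exact h1

/-- no simple edges -/
lemma SK_two {K : Finset P} {psi : P → P} (hM : Mat P i K psi) {C : Finset P} (hK : Star i C K)
    (h : Pvt i z y) (hk : k ∈ dbL P i ∪ dbU P i) (hkK : k ∈ K)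
    (hd : Disjoint (ns i y) (ns i k)) : SK i K psi (indK {z, y, k}) = ∅ := by
  rw [eq_empty_iff_forall_notMem]
  intro x hx
  obtain ⟨h1, h2⟩ := mem_SK2.1 hx
  obtain ⟨p1, p2, p3⟩ := psi_lowK hM h1
  rw [mem_sdiff] at h1
  have p4 := (psi_low hM h1.1 h1.2).2.2.2
  have l1 := (mem_dbL.1 h1.1).1
  have l2 := (mem_dbU.1 p1).1
  have nearz : lev z = i + 2 ∨ lev z + 2 = i := by
    rcases h with h | h
    · exact Or.inl h.1
    · exact Or.inr h.1
  have h3 : x ∈ ({z, y, k} : Finset P) ∨ psi x ∈ ({z, y, k} : Finset P) := by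
    rcases h2.one with h3 | h3
    · exact Or.inl (indK_pos (by omega))
    · exact Or.inr (indK_pos (by omega))
  rcases h3 with h3 | h3
  · rw [mem_insert, mem_insert, mem_singleton] at h3
    rcases h3 with rfl | rfl | rfl
    · omega
    · rcases h with ⟨-, h4, -⟩ | ⟨h4, -, h5⟩
      · have h5 := h2.lo z (mem_dc.2 (mem_uc.1 (by rw [h4]; exact mem_singleton_self _)))
        rw [indK_one (mem_insert_self _ _)] at h5
        omega
      · have := (mem_dbU.1 h5).1
        omega
    · exact h1.2 hkK
  · rw [mem_insert, mem_insert, mem_singleton] at h3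
    rcases h3 with h3 | h3 | h3
    · rw [h3] at l2
      omega
    · rcases h with ⟨-, -, h4⟩ | ⟨h4, h5, -⟩
      · have := (mem_dbL.1 h4).1
        rw [h3] at l2
        omega
      · have h6 := h2.up z (mem_uc.2 (mem_dc.1 (by rw [h3, h5]; exact mem_singleton_self _)))
        rw [indK_one (mem_insert_self _ _)] at h6
        omega
    · rw [h3] at p4
      exact p4 hkK

end two

section one

variable {q k k' : P}

/-- the leading coefficient of `q + k + k'` -/
theorem lead_one (H : Gr P r) (hir : i ≤ r) {C : Finset P} (hC : Part i C)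
    (hk : k ∈ dbL P i ∪ dbU P i) (hk' : k' ∈ dbL P i ∪ dbU P i) (hne : k ≠ k')
    (hq : ns i k ∩ ns i k' = {q}) (hF : ({q, k, k'} : Finset P) ⊆ C) :
    dd ^ ((st i C).card - 1) ∣ tC i C (indK {q, k, k'}) -
      ((sgn i k * sgn i k' : ℤ) : A) * dd ^ ((st i C).card - 2) := by
  classical
  have hqk : q ∈ ns i k ∧ q ∈ ns i k' := by
    rw [← mem_inter, hq]
    exact mem_singleton_self _
  have hql := lev_ns H hk hqk.1
  have hG : ({k, k'} : Finset P) ⊆ dbL P i ∪ dbU P i := by
    intro x hx
    rw [mem_insert, mem_singleton] at hx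
    rcases hx with rfl | rfl
    · exact hk
    · exact hk'
  have hqG : ∀ x ∈ ({k, k'} : Finset P), q ∈ ns i x := by
    intro x hx
    rw [mem_insert, mem_singleton] at hx
    rcases hx with rfl | rfl
    · exact hqk.1
    · exact hqk.2
  have near : ∀ x ∈ ({k, k'} : Finset P), lev x = i + 1 ∨ lev x + 1 = i := by
    intro x hx
    rcases mem_DD.1 (hG hx) with h | h
    · exact Or.inl h.1
    · exact Or.inr h.1
  have site : ∀ v, lev v = i → (v ∈ ({q, k, k'} : Finset P) ↔ v = q) := by
    intro v hv
    constructor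
    · intro h
      rw [mem_insert] at h
      rcases h with h | h
      · exact h
      · rcases near v h with h1 | h1 <;> omega
    · rintro rfl
      exact mem_insert_self _ _
  have hc : Cl i ({q, k, k'} : Finset P) := by
    constructor
    · intro x hx t ht hlt
      have h1 := lev_uc H ht
      rw [mem_insert] at hx
      rcases hx with rfl | hx
      · omega
      · rcases near x hx with h2 | h2 <;> omega
    · intro x hx t ht hlt
      have h1 := lev_dc H ht
      rw [mem_insert] at hx
      rcases hx with rfl | hx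
      · omega
      · rcases near x hx with h2 | h2 <;> omega
  have hDj : ∀ a ∈ ({k, k'} : Finset P), ∀ b ∈ ({k, k'} : Finset P), a ≠ b →
      Disjoint ((ns i a).erase q) ((ns i b).erase q) := by
    have key : Disjoint ((ns i k).erase q) ((ns i k').erase q) := by
      rw [disjoint_left]
      intro v hv hv'
      rw [mem_erase] at hv hv'
      have : v ∈ ns i k ∩ ns i k' := mem_inter.2 ⟨hv.2, hv'.2⟩
      rw [hq, mem_singleton] at this
      exact hv.1 this
    intro a ha b hb hab
    rw [mem_insert, mem_singleton] at ha hb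
    rcases ha with rfl | rfl <;> rcases hb with rfl | rfl
    · exact absurd rfl hab
    · exact key
    · exact key.symm
    · exact absurd rfl hab
  have hcard : ∀ G ⊆ ({k, k'} : Finset P), (G.biUnion (fun x => (ns i x).erase q)).card =
      G.card := by
    intro G hG'
    rw [card_biUnion]
    · rw [sum_congr rfl (g := fun _ => 1), sum_const, smul_eq_mul, mul_one]
      intro x hx
      rw [card_erase_of_mem (hqG x (hG' hx)), ns_card (hG (hG' hx))]
    · intro a ha b hb hab
      exact hDj a (hG' ha) b (hG' hb) hab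
  have eAL : AL i (indK {q, k, k'}) = (({k, k'} : Finset P) ∩ dbL P i).biUnion
      (fun x => (ns i x).erase q) := by
    ext v
    rw [mem_AL_ind, mem_biUnion]
    constructor
    · rintro ⟨h1, h0, x, hx, hv⟩
      have h2 := lev_uc H hv
      rw [site v h1] at h0
      have h3 : x ∈ ({k, k'} : Finset P) := by
        rw [mem_insert] at hx
        rcases hx with rfl | hx
        · omega
        · exact hx
      have h4 : x ∈ dbL P i := by
        rcases mem_union.1 (hG h3) with h5 | h5
        · exact h5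
        · have := (mem_dbU.1 h5).1
          omega
      refine ⟨x, mem_inter.2 ⟨h3, h4⟩, mem_erase.2 ⟨h0, ?_⟩⟩
      rw [ns_L h4]
      exact hv
    · rintro ⟨x, hx, hv⟩
      rw [mem_inter] at hx
      rw [mem_erase] at hv
      have h1 := lev_ns H (hG hx.1) hv.2
      rw [ns_L hx.2] at hv
      refine ⟨h1, ?_, x, mem_insert_of_mem hx.1, hv.2⟩
      rw [site v h1]
      exact hv.1
  have eAU : AU i (indK {q, k, k'}) = (({k, k'} : Finset P) ∩ dbU P i).biUnion
      (fun x => (ns i x).erase q) := by
    ext v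
    rw [mem_AU_ind, mem_biUnion]
    constructor
    · rintro ⟨h1, h0, x, hx, hv⟩
      have h2 := lev_dc H hv
      rw [site v h1] at h0
      have h3 : x ∈ ({k, k'} : Finset P) := by
        rw [mem_insert] at hx
        rcases hx with rfl | hx
        · omega
        · exact hx
      have h4 : x ∈ dbU P i := by
        rcases mem_union.1 (hG h3) with h5 | h5
        · have := (mem_dbL.1 h5).1
          omega
        · exact h5
      refine ⟨x, mem_inter.2 ⟨h3, h4⟩, mem_erase.2 ⟨h0, ?_⟩⟩
      rw [ns_U h4]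
      exact hv
    · rintro ⟨x, hx, hv⟩
      rw [mem_inter] at hx
      rw [mem_erase] at hv
      have h1 := lev_ns H (hG hx.1) hv.2
      rw [ns_U hx.2] at hv
      refine ⟨h1, ?_, x, mem_insert_of_mem hx.1, hv.2⟩
      rw [site v h1]
      exact hv.1
  have epL : pL i (indK {q, k, k'}) = 0 := by
    rw [hc.pL H, card_eq_zero, filter_eq_empty_iff]
    rintro x hx ⟨h1, h2⟩
    rw [mem_insert] at hx
    rcases hx with rfl | hx
    · omega
    · have h3 := hqG x hx
      have h4 : x ∈ dbL P i := by
        rcases mem_union.1 (hG hx) with h5 | h5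
        · exact h5
        · have := (mem_dbU.1 h5).1
          omega
      rw [ns_L h4] at h3
      exact h2 q h3 (mem_insert_self _ _)
  have epU : pU i (indK {q, k, k'}) = 0 := by
    rw [hc.pU H hir, card_eq_zero, filter_eq_empty_iff]
    rintro x hx ⟨h1, h2⟩
    rw [mem_insert] at hx
    rcases hx with rfl | hx
    · omega
    · have h3 := hqG x hx
      have h4 : x ∈ dbU P i := by
        rcases mem_union.1 (hG hx) with h5 | h5
        · have := (mem_dbL.1 h5).1
          omega
        · exact h5
      rw [ns_U h4] at h3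
      exact h2 q h3 (mem_insert_self _ _)
  have cAL : (AL i (indK {q, k, k'})).card = (({k, k'} : Finset P) ∩ dbL P i).card := by
    rw [eAL, hcard _ inter_subset_left]
  have cAU : (AU i (indK {q, k, k'})).card = (({k, k'} : Finset P) ∩ dbU P i).card := by
    rw [eAU, hcard _ inter_subset_left]
  have hsum : (({k, k'} : Finset P) ∩ dbL P i).card +
      (({k, k'} : Finset P) ∩ dbU P i).card = 2 := by
    rw [← card_union_of_disjoint]
    · rw [← inter_union_distrib_left, inter_eq_left.2 hG, card_pair hne]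
    · rw [disjoint_left]
      intro x h1 h2
      rw [mem_inter] at h1 h2
      have h3 := (mem_dbL.1 h1.2).1
      have h4 := (mem_dbU.1 h2.2).1
      omega
  have hDis : Disjoint (AL i (indK {q, k, k'})) (AU i (indK {q, k, k'})) := by
    rw [eAL, eAU, disjoint_left]
    intro x hx hx'
    rw [mem_biUnion] at hx hx'
    obtain ⟨w, hw, hxw⟩ := hx
    obtain ⟨w', hw', hxw'⟩ := hx'
    rw [mem_inter] at hw hw'
    have hne : w ≠ w' := by
      rintro rfl
      have h3 := (mem_dbL.1 hw.2).1
      have h4 := (mem_dbU.1 hw'.2).1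
      omega
    exact disjoint_left.1 (hDj w hw.1 w' hw'.1 hne) hxw hxw'
  have h1 := tC_lead (C := C) hc.admL hc.admU hDis (by omega)
    (card_le_st H hC (spt_indK hF) hDis)
  have h2 : (-1 : ℤ) ^ (aL i (indK {q, k, k'}) + aU i (indK {q, k, k'}) +
      pU i (indK {q, k, k'}) + (AL i (indK {q, k, k'})).card) = sgn i k * sgn i k' := by
    rw [hc.aL, hc.aU, epU, cAL, zero_add, zero_add, zero_add, ← prod_pair (f := sgn i) hne,
      prod_sgn]
    have h3 : (({k, k'} : Finset P) ∩ dbL P i).card = 2 - (({k, k'} : Finset P) ∩ dbU P i).card := by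
      omega
    have h4 : (({k, k'} : Finset P) ∩ dbU P i).card ≤ 2 := by omega
    rw [h3]
    interval_cases (({k, k'} : Finset P) ∩ dbU P i).card <;> norm_num
  rw [h2] at h1
  exact h1

/-- no simple edges -/
lemma SK_one {K : Finset P} {psi : P → P} (hM : Mat P i K psi) (hkK : k ∈ K) (hkK' : k' ∈ K)
    (hq : lev q = i) : SK i K psi (indK {q, k, k'}) = ∅ := by
  rw [eq_empty_iff_forall_notMem]
  intro x hx
  obtain ⟨h1, h2⟩ := mem_SK2.1 hx
  obtain ⟨p1, p2, p3⟩ := psi_lowK hM h1
  rw [mem_sdiff] at h1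
  have p4 := (psi_low hM h1.1 h1.2).2.2.2
  have l1 := (mem_dbL.1 h1.1).1
  have l2 := (mem_dbU.1 p1).1
  have h3 : x ∈ ({q, k, k'} : Finset P) ∨ psi x ∈ ({q, k, k'} : Finset P) := by
    rcases h2.one with h3 | h3
    · exact Or.inl (indK_pos (by omega))
    · exact Or.inr (indK_pos (by omega))
  rcases h3 with h3 | h3
  · rw [mem_insert, mem_insert, mem_singleton] at h3
    rcases h3 with rfl | rfl | rfl
    · omega
    · exact h1.2 hkK
    · exact h1.2 hkK'
  · rw [mem_insert, mem_insert, mem_singleton] at h3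
    rcases h3 with h3 | h3 | h3
    · rw [h3] at l2
      omega
    · rw [h3] at p4
      exact p4 hkK
    · rw [h3] at p4
      exact p4 hkK'

end one

end Pool.Agent.GaussPoset.Win.K2
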