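import Pool.Agent.W_448v_h15.VB

/-!
The value of `w3` of a star component (MP_448cb3_co, case B), part C: the configurations of energy
three and order two without simple edges which excite a site, or an element which is not a double
near element.
-/

namespace Pool.Agent.GaussPoset.Win.K2

set_option linter.unusedSectionVars false

open Finset I2

universe u

variable {P : Type u} [Fintype P] [PartialOrder P] [DecidableEq P] {r i : ℕ} {e : P → ℕ}

/-- far above the window or near with one lower cover -/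
def Dq (i : ℕ) (x : P) : Prop := lev x + 2 ≤ i ∨ (lev x + 1 = i ∧ (dc x).card = 1)

section pt

variable (H : Gr P r) (hir : i ≤ r) (hq : NoQ P (i + 2)) (hg : ∀ m, m + 1 = i → Good P m)
include H hir hq hg

lemma ch_le_Dq (hU : AdmU i e) {x : P} (h0 : 1 ≤ e x) (hD : Dq i x) :
    ch i e x ≤ 2 * (e x : ℤ) - 2 ∧ ch i e x ≤ 2 ∧
      (lev x + 1 = i → ch i e x ≤ 0) := by
  classical
  have SU := side_up (i := i) H hir hg
  have h0' : (1 : ℤ) ≤ e x := by exact_mod_cast h0
  have h1 : lev x < i := by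
    unfold Dq at hD
    rcases hD with h | h <;> omega
  have hxS : x ∈ uS P i := mem_uS.2 h1
  unfold ch
  rw [if_neg (by omega), if_pos h1]
  split_ifs with h2
  · have h5 := cc_le_two (e := e) SU x
    have h6 := t_le_of_kl SU (adm_up hU) (i - lev x) x hxS h2 rfl
    unfold Dq at hD
    rcases hD with h | ⟨h, hc⟩
    · have : (2 : ℤ) ≤ e x := by exact_mod_cast (by omega : 2 ≤ e x)
      refine ⟨by linarith, h5, fun h7 => by omega⟩
    · have h7 := sur_single (c := dc) (c' := uc) (e := e) hc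
      unfold sur at h7
      rw [if_pos h2] at h7
      refine ⟨by linarith, by linarith, fun _ => by linarith⟩
  · exact ⟨by linarith, by norm_num, fun _ => le_rfl⟩

/-- all the charges are extremal -/
theorem eq_ch (hL : AdmL i e) (hU : AdmU i e) (h3 : ∑ x, e x = 3)
    (ho : pL i e + pU i e + 2 ≤ (AL i e).card + (AU i e).card) {x0 : P}
    (hx0 : ch i e x0 ≤ 2 * (e x0 : ℤ) - 2) :
    ch i e x0 = 2 * (e x0 : ℤ) - 2 ∧ ∀ x, x ≠ x0 → 1 ≤ e x → x ∈ bN i e := by
  classical
  have h1 := sum_ch H hir hq hg hL hU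
  have h2 : ∀ x ∈ (univ : Finset P), ch i e x ≤ 2 * (e x : ℤ) - (if x = x0 then 2 else 0) := by
    intro x _
    split_ifs with h
    · rw [h]
      exact hx0
    · have := ch_le H hir hq hg (e := e) x
      linarith
  have h4 : ∑ x, (2 * (e x : ℤ) - (if x = x0 then 2 else 0)) ≤ ∑ x, ch i e x := by
    rw [h1, Finset.sum_sub_distrib, ← Finset.mul_sum, Finset.sum_ite_eq' univ x0,
      if_pos (mem_univ _)]
    have h5 : ((∑ x, e x : ℕ) : ℤ) = ∑ x, (e x : ℤ) := by push_cast; rfl
    rw [← h5, h3]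
    have h6 : ((pL i e + pU i e + 2 : ℕ) : ℤ) ≤ (((AL i e).card + (AU i e).card : ℕ) : ℤ) := by
      exact_mod_cast ho
    push_cast at h6 ⊢
    linarith
  have h5 : ∀ x ∈ (univ : Finset P), ch i e x = 2 * (e x : ℤ) - (if x = x0 then 2 else 0) :=
    (Finset.sum_eq_sum_iff_of_le h2).1 (le_antisymm (Finset.sum_le_sum h2) h4)
  constructor
  · have h6 := h5 x0 (mem_univ _)
    rwa [if_pos rfl] at h6
  · intro x hx h0
    by_contra hb
    have h6 := h5 x (mem_univ x)
    rw [if_neg hx] at h6
    have h7 := ch_le_one H hir hq hg hL hU h0 hb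
    linarith

omit H hir hq hg in
/-- the shape of a configuration of energy three -/
lemma shape3 {x0 : P} (h1 : e x0 = 1) (hS : ∀ x, x ≠ x0 → 1 ≤ e x → e x = 1)
    (h3 : ∑ x, e x = 3) : ∃ k k', k ≠ k' ∧ k ≠ x0 ∧ k' ≠ x0 ∧ e = indK {x0, k, k'} := by
  classical
  have h4 : ∑ x, e x = e x0 + (univ.filter (fun x => x ≠ x0 ∧ 1 ≤ e x)).card := by
    rw [← Finset.add_sum_erase univ e (mem_univ x0), Finset.card_eq_sum_ones]
    congr 1
    rw [← Finset.sum_filter_add_sum_filter_not (univ.erase x0) (fun x => 1 ≤ e x)]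
    have h5 : ∑ x ∈ (univ.erase x0).filter (fun x => ¬ 1 ≤ e x), e x = 0 := by
      refine Finset.sum_eq_zero fun x hx => ?_
      rw [mem_filter] at hx
      omega
    rw [h5, add_zero]
    have h6 : (univ.erase x0).filter (fun x => 1 ≤ e x) =
        univ.filter (fun x => x ≠ x0 ∧ 1 ≤ e x) := by
      ext x
      simp only [mem_filter, mem_erase, mem_univ, and_true, true_and]
    rw [h6]
    refine Finset.sum_congr rfl fun x hx => ?_
    rw [mem_filter] at hx
    exact hS x hx.2.1 hx.2.2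
  rw [h3, h1] at h4
  obtain ⟨k, k', hne, hkk⟩ := Finset.card_eq_two.1
    (show (univ.filter (fun x => x ≠ x0 ∧ 1 ≤ e x)).card = 2 by omega)
  have hk : k ∈ univ.filter (fun x => x ≠ x0 ∧ 1 ≤ e x) := by
    rw [hkk]
    exact mem_insert_self _ _
  have hk' : k' ∈ univ.filter (fun x => x ≠ x0 ∧ 1 ≤ e x) := by
    rw [hkk]
    exact mem_insert_of_mem (mem_singleton_self _)
  rw [mem_filter] at hk hk'
  refine ⟨k, k', hne, hk.2.1, hk'.2.1, ?_⟩
  funext x
  by_cases hx : x ∈ ({x0, k, k'} : Finset P)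
  · rw [indK_one hx]
    rw [mem_insert, mem_insert, mem_singleton] at hx
    rcases hx with rfl | rfl | rfl
    · exact h1
    · exact hS _ hk.2.1 hk.2.2
    · exact hS _ hk'.2.1 hk'.2.2
  · rw [indK_zero hx]
    by_contra h
    apply hx
    by_cases hx0 : x = x0
    · rw [hx0]
      exact mem_insert_self _ _
    · have h5 : x ∈ univ.filter (fun x => x ≠ x0 ∧ 1 ≤ e x) :=
        mem_filter.2 ⟨mem_univ _, hx0, by omega⟩
      rw [hkk] at h5
      exact mem_insert_of_mem h5

omit hq hg hir in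
lemma pos_uc (hL : AdmL i e) {x y : P} (hx : i + 2 ≤ lev x) (h0 : 1 ≤ e x) (hy : y ∈ uc x) :
    1 ≤ e y := by
  by_contra h
  have h1 := lev_uc H hy
  obtain ⟨t, ht⟩ := uc_nonempty H (x := y) (by omega)
  exact hL y (by omega) ⟨⟨x, mem_uc.1 hy, by omega⟩, ⟨t, mem_uc.1 ht, by omega⟩⟩

omit hq hg in
lemma pos_dc (hU : AdmU i e) {x y : P} (hx : lev x + 2 ≤ i) (h0 : 1 ≤ e x) (hy : y ∈ dc x) :
    1 ≤ e y := by
  by_contra h
  have h1 := lev_dc H hy
  obtain ⟨t, ht⟩ := dc_nonempty H (x := y) (by omega)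
  exact hU y (by omega) ⟨⟨x, mem_dc.1 hy, by omega⟩, ⟨t, mem_dc.1 ht, by omega⟩⟩

lemma near_bN {k : P} (hk : k ∈ bN i e) : k ∈ dbL P i ∪ dbU P i := by
  unfold bN at hk
  rcases mem_union.1 hk with h | h
  · obtain ⟨h1, h2, -⟩ := bL_data H hir hq hg h
    exact mem_union_left _ (mem_dbL.2 ⟨h1, h2⟩)
  · obtain ⟨h1, h2, -⟩ := bU_data H hir hq hg h
    exact mem_union_right _ (mem_dbU.2 ⟨h1, h2⟩)

/-- a bad element without an excited child is in `K` -/
lemma bN_inK {K : Finset P} {psi : P → P} (hM : Mat P i K psi) (hL : AdmL i e) (hU : AdmU i e)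
    (hd : Disjoint (AL i e) (AU i e)) (hSK : SK i K psi e = ∅) {k : P} (hk : k ∈ bN i e)
    (h1 : ∀ z, (lev z = i + 2 ∧ k ∈ uc z) ∨ (lev z + 2 = i ∧ k ∈ dc z) → e z = 0) : k ∈ K := by
  by_contra hK
  unfold bN at hk
  rcases mem_union.1 hk with h | h
  · obtain ⟨l1, -⟩ := bL_data H hir hq hg h
    have h2 : k ∈ SK i K psi e := (low_simple hM H hq hU hd h hK (by
      intro z hz
      have := lev_dc H hz
      exact h1 z (Or.inl ⟨by omega, mem_uc.2 (mem_dc.1 hz)⟩))).1
    rw [hSK] at h2
    exact notMem_empty _ h2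
  · obtain ⟨l1, -⟩ := bU_data H hir hq hg h
    have h2 : psi k ∈ SK i K psi e := (up_simple hM H hir hg hL hd h hK (by
      intro z hz
      have := lev_uc H hz
      exact h1 z (Or.inr ⟨by omega, mem_dc.2 (mem_uc.1 hz)⟩))).2.1
    rw [hSK] at h2
    exact notMem_empty _ h2

/-- THE CONFIGURATIONS WITH AN EXCITED SITE -/
theorem class_one {K : Finset P} {psi : P → P} (hM : Mat P i K psi) {C : Finset P}
    (hK : Star i C K) (hs : Spt C e) (hL : AdmL i e) (hU : AdmU i e)
    (hd : Disjoint (AL i e) (AU i e)) (hSK : SK i K psi e = ∅) (h3 : ∑ x, e x = 3)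
    (ho : pL i e + pU i e + 2 ≤ (AL i e).card + (AU i e).card) {q : P} (hql : lev q = i)
    (h0 : 1 ≤ e q) :
    ∃ k k', k ∈ K ∧ k' ∈ K ∧ k ≠ k' ∧ k ∈ dbL P i ∪ dbU P i ∧ k' ∈ dbL P i ∪ dbU P i ∧
      ns i k ∩ ns i k' = {q} ∧ e = indK {q, k, k'} := by
  have hc0 : ch i e q = 0 := by
    unfold ch
    rw [if_neg (by omega), if_neg (by omega)]
  have h0' : (1 : ℤ) ≤ e q := by exact_mod_cast h0
  obtain ⟨h4, h5⟩ := eq_ch H hir hq hg hL hU h3 ho (x0 := q) (by rw [hc0]; linarith)
  have h6 : e q = 1 := by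
    rw [hc0] at h4
    have : (e q : ℤ) = 1 := by linarith
    exact_mod_cast this
  obtain ⟨k, k', hne, hk0, hk0', he⟩ := shape3 h6
    (fun x hx hx1 => (bN_data H hir hq hg (h5 x hx hx1)).2.1) h3
  have ek : e k = 1 := by
    rw [he]
    exact indK_one (mem_insert_of_mem (mem_insert_self _ _))
  have ek' : e k' = 1 := by
    rw [he]
    exact indK_one (mem_insert_of_mem (mem_insert_of_mem (mem_singleton_self _)))
  have hkb := h5 k hk0 (by omega)
  have hkb' := h5 k' hk0' (by omega)
  have hkD := near_bN H hir hq hg hkb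
  have hkD' := near_bN H hir hq hg hkb'
  have far : ∀ z, (lev z = i + 2 ∨ lev z + 2 = i) → e z = 0 := by
    intro z hz
    by_contra h
    have h7 : z ∈ ({q, k, k'} : Finset P) := by
      apply indK_pos
      rw [← he]
      omega
    rw [mem_insert, mem_insert, mem_singleton] at h7
    rcases h7 with rfl | rfl | rfl
    · omega
    · rcases mem_DD.1 hkD with h8 | h8 <;> omega
    · rcases mem_DD.1 hkD' with h8 | h8 <;> omega
  have hkK : k ∈ K := by
    refine bN_inK H hir hq hg hM hL hU hd hSK hkb ?_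
    rintro z (h | h)
    · exact far z (Or.inl h.1)
    · exact far z (Or.inr h.1)
  have hkK' : k' ∈ K := by
    refine bN_inK H hir hq hg hM hL hU hd hSK hkb' ?_
    rintro z (h | h)
    · exact far z (Or.inl h.1)
    · exact far z (Or.inr h.1)
  have hC : ∀ x, e x = 1 → x ∈ C := by
    intro x hx
    by_contra h
    have := hs x h
    omega
  have hall : ∀ t ∈ ns i k ∩ ns i k', t = q := by
    intro t ht
    rw [mem_inter] at ht
    have h7 := bad_disj H hir hq hg hd hkb hkb' hne ht.1 ht.2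
    have h8 := lev_ns H hkD ht.1
    have h9 : t ∈ ({q, k, k'} : Finset P) := by
      apply indK_pos
      rw [← he]
      omega
    rw [mem_insert, mem_insert, mem_singleton] at h9
    rcases h9 with h9 | rfl | rfl
    · exact h9
    · rcases mem_DD.1 hkD with h9 | h9 <;> omega
    · rcases mem_DD.1 hkD' with h9 | h9 <;> omega
  obtain ⟨t, ht, ht'⟩ := hK.two k hkK (hC k ek) k' hkK' (hC k' ek') hne
  have htq := hall t (mem_inter.2 ⟨ht, ht'⟩)
  refine ⟨k, k', hkK, hkK', hne, hkD, hkD', ?_, he⟩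
  ext x
  rw [mem_singleton]
  constructor
  · exact hall x
  · rintro rfl
    rw [← htq]
    exact mem_inter.2 ⟨ht, ht'⟩

/-- THE CONFIGURATIONS WITH AN EXCITED ELEMENT OUTSIDE THE SITES AND THE DOUBLE NEAR ELEMENTS -/
theorem class_two {K : Finset P} {psi : P → P} (hM : Mat P i K psi) {C : Finset P}
    (hK : Star i C K) (hs : Spt C e) (hL : AdmL i e) (hU : AdmU i e)
    (hd : Disjoint (AL i e) (AU i e)) (hSK : SK i K psi e = ∅) (h3 : ∑ x, e x = 3)
    (ho : pL i e + pU i e + 2 ≤ (AL i e).card + (AU i e).card)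
    (hsite : ∀ x, lev x = i → e x = 0) {z : P} (h0 : 1 ≤ e z) (hz : z ∉ dbL P i ∪ dbU P i) :
    ∃ y k, Pvt i z y ∧ k ∈ K ∧ k ∈ dbL P i ∪ dbU P i ∧ Disjoint (ns i y) (ns i k) ∧
      e = indK {z, y, k} := by
  have hzi : lev z ≠ i := by
    intro h
    have := hsite z h
    omega
  have h0' : (1 : ℤ) ≤ e z := by exact_mod_cast h0
  have hC : ∀ x, 1 ≤ e x → x ∈ C := by
    intro x hx
    by_contra h
    have := hs x h
    omega
  have hPQ : (lev z = i + 1 ∧ (uc z).card = 1) ∨ (lev z + 1 = i ∧ (dc z).card = 1) ∨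
      i + 2 ≤ lev z ∨ lev z + 2 ≤ i := by
    rw [mem_DD] at hz
    push Not at hz
    rcases Nat.lt_trichotomy (lev z) i with h | h | h
    · rcases Nat.eq_or_lt_of_le (show lev z + 1 ≤ i by omega) with h1 | h1
      · right
        left
        have h2 := hz.2 h1
        have h3 := dc_card_le H z
        have h4 : 0 < (dc z).card := card_pos.2 (dc_nonempty H (by omega))
        exact ⟨h1, by omega⟩
      · right
        right
        right
        omega
    · exact absurd h hzi
    · rcases Nat.eq_or_lt_of_le (show i + 1 ≤ lev z by omega) with h1 | h1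
      · left
        have h2 := hz.1 h1.symm
        have h3 := uc_card_le H z
        have h4 : 0 < (uc z).card := card_pos.2 (uc_nonempty H (by omega))
        exact ⟨h1.symm, by omega⟩
      · right
        right
        left
        omega
  have hchz : ch i e z ≤ 2 * (e z : ℤ) - 2 ∧ ch i e z ≤ 2 ∧
      (lev z = i + 1 ∨ lev z + 1 = i → ch i e z ≤ 0) := by
    rcases hPQ with h | h | h | h
    · have h1 := ch_le_D H hir hq hg hL h0 (Or.inr h)
      exact ⟨h1.1, h1.2.1, fun _ => h1.2.2 h.1⟩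
    · have h1 := ch_le_Dq H hir hq hg hU h0 (Or.inr h)
      exact ⟨h1.1, h1.2.1, fun _ => h1.2.2 h.1⟩
    · have h1 := ch_le_D H hir hq hg hL h0 (Or.inl h)
      exact ⟨h1.1, h1.2.1, fun h2 => by omega⟩
    · have h1 := ch_le_Dq H hir hq hg hU h0 (Or.inl h)
      exact ⟨h1.1, h1.2.1, fun h2 => by omega⟩
  obtain ⟨h4, h5⟩ := eq_ch H hir hq hg hL hU h3 ho (x0 := z) hchz.1
  have h1e : ∀ x, x ≠ z → 1 ≤ e x → e x = 1 :=
    fun x hx hx1 => (bN_data H hir hq hg (h5 x hx hx1)).2.1
  have nearx : ∀ x, x ≠ z → 1 ≤ e x → lev x = i + 1 ∨ lev x + 1 = i := by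
    intro x hx hx1
    rcases mem_DD.1 (near_bN H hir hq hg (h5 x hx hx1)) with h | h
    · exact Or.inl h.1
    · exact Or.inr h.1
  have he2 : e z ≤ 2 := by
    have : (e z : ℤ) ≤ 2 := by
      have := hchz.2.1
      linarith
    exact_mod_cast this
  -- the covers of `z`
  have cov : ((i + 2 ≤ lev z → ∀ y ∈ uc z, 1 ≤ e y ∧ y ≠ z) ∧
      (lev z + 2 ≤ i → ∀ y ∈ dc z, 1 ≤ e y ∧ y ≠ z)) := by
    constructor
    · intro h y hy
      have := lev_uc H hy
      exact ⟨pos_uc H hL h h0 hy, by rintro rfl; omega⟩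
    · intro h y hy
      have := lev_dc H hy
      exact ⟨pos_dc H hir hU h h0 hy, by rintro rfl; omega⟩
  have hz1 : e z = 1 := by
    by_contra hne
    have hz2 : e z = 2 := by omega
    -- exactly one other excited element
    have huniq : ∀ x x', x ≠ z → x' ≠ z → 1 ≤ e x → 1 ≤ e x' → x = x' := by
      intro x x' hx hx' hx1 hx1'
      by_contra hxx
      have h6 : ∑ t ∈ ({z, x, x'} : Finset P), e t ≤ ∑ t, e t :=
        Finset.sum_le_sum_of_subset (subset_univ _)
      rw [sum_insert, sum_pair hxx] at h6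
      · omega
      · rw [mem_insert, mem_singleton]
        rintro (h | h)
        · exact hx h.symm
        · exact hx' h.symm
    rcases hPQ with h | h | h | h
    · have h6 := hchz.2.2 (Or.inl h.1)
      rw [h4, hz2] at h6
      norm_num at h6
    · have h6 := hchz.2.2 (Or.inr h.1)
      rw [h4, hz2] at h6
      norm_num at h6
    · have SL := side_low (i := i) H hq
      have h6 : cc uc dc e z = 2 := by
        have h7 := h4
        unfold ch at h7
        rw [if_pos (by omega)] at h7
        split_ifs at h7 with h8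
        · rw [h7, hz2]
          norm_num
        · rw [hz2] at h7
          norm_num at h7
      obtain ⟨a, b, hab, hcc⟩ := Finset.card_eq_two.1 (cc_eq_two SL h6).1
      have ha := cov.1 h a (by rw [hcc]; exact mem_insert_self _ _)
      have hb := cov.1 h b (by rw [hcc]; exact mem_insert_of_mem (mem_singleton_self _))
      exact hab (huniq a b ha.2 hb.2 ha.1 hb.1)
    · have SU := side_up (i := i) H hir hg
      have h6 : cc dc uc e z = 2 := by
        have h7 := h4
        unfold ch at h7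
        rw [if_neg (by omega), if_pos (by omega)] at h7
        split_ifs at h7 with h8
        · rw [h7, hz2]
          norm_num
        · rw [hz2] at h7
          norm_num at h7
      obtain ⟨a, b, hab, hcc⟩ := Finset.card_eq_two.1 (cc_eq_two SU h6).1
      have ha := cov.2 h a (by rw [hcc]; exact mem_insert_self _ _)
      have hb := cov.2 h b (by rw [hcc]; exact mem_insert_of_mem (mem_singleton_self _))
      exact hab (huniq a b ha.2 hb.2 ha.1 hb.1)
  obtain ⟨k, k', hne, hk0, hk0', he⟩ := shape3 hz1 h1e h3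
  have ek : e k = 1 := by
    rw [he]
    exact indK_one (mem_insert_of_mem (mem_insert_self _ _))
  have ek' : e k' = 1 := by
    rw [he]
    exact indK_one (mem_insert_of_mem (mem_insert_of_mem (mem_singleton_self _)))
  have hkb := h5 k hk0 (by omega)
  have hkb' := h5 k' hk0' (by omega)
  have hkD := near_bN H hir hq hg hkb
  have hkD' := near_bN H hir hq hg hkb'
  have hexc : ∀ x, 1 ≤ e x → x = z ∨ x = k ∨ x = k' := by
    intro x hx
    have : x ∈ ({z, k, k'} : Finset P) := by
      apply indK_pos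
      rw [← he]
      omega
    simpa only [mem_insert, mem_singleton] using this
  have hdis : Disjoint (ns i k) (ns i k') := by
    rw [disjoint_left]
    intro t ht ht'
    have h7 := bad_disj H hir hq hg hd hkb hkb' hne ht ht'
    exact h7 (hsite t (lev_ns H hkD ht))
  have hnK : ¬ (k ∈ K ∧ k' ∈ K) := by
    rintro ⟨hkK, hkK'⟩
    obtain ⟨t, ht, ht'⟩ := hK.two k hkK (hC k (by omega)) k' hkK' (hC k' (by omega)) hne
    exact disjoint_left.1 hdis ht ht'
  have toK : ∀ x ∈ bN i e, (∀ y, (lev z = i + 2 ∧ uc z = {y}) ∨ (lev z + 2 = i ∧ dc z = {y}) →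
      x ≠ y) → ((i + 2 ≤ lev z ∧ x ∈ uc z) ∨ (lev z + 2 ≤ i ∧ x ∈ dc z) → False) → x ∈ K := by
    intro x hx _ hx2
    refine bN_inK H hir hq hg hM hL hU hd hSK hx ?_
    intro t ht
    by_contra htne
    rcases hexc t (by omega) with rfl | rfl | rfl
    · apply hx2
      rcases ht with ht | ht
      · exact Or.inl ⟨by omega, ht.2⟩
      · exact Or.inr ⟨by omega, ht.2⟩
    · rcases mem_DD.1 hkD with h | h <;> rcases ht with ht | ht <;> omega
    · rcases mem_DD.1 hkD' with h | h <;> rcases ht with ht | ht <;> omega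
  have toK' : ∀ x ∈ bN i e, ((i + 2 ≤ lev z ∧ x ∈ uc z) ∨ (lev z + 2 ≤ i ∧ x ∈ dc z) → False) →
      x ∈ K := by
    intro x hx hx2
    refine toK x hx ?_ hx2
    rintro y (⟨h6, h7⟩ | ⟨h6, h7⟩) rfl
    · exact hx2 (Or.inl ⟨by omega, by rw [h7]; exact mem_singleton_self _⟩)
    · exact hx2 (Or.inr ⟨by omega, by rw [h7]; exact mem_singleton_self _⟩)
  rcases hPQ with h | h | h | h
  · exfalso
    apply hnK
    exact ⟨toK' k hkb (by rintro (⟨h6, -⟩ | ⟨h6, -⟩) <;> omega),
      toK' k' hkb' (by rintro (⟨h6, -⟩ | ⟨h6, -⟩) <;> omega)⟩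
  · exfalso
    apply hnK
    exact ⟨toK' k hkb (by rintro (⟨h6, -⟩ | ⟨h6, -⟩) <;> omega),
      toK' k' hkb' (by rintro (⟨h6, -⟩ | ⟨h6, -⟩) <;> omega)⟩
  · -- `z` below the window
    have hsub : ∀ y ∈ uc z, y = k ∨ y = k' := by
      intro y hy
      obtain ⟨h6, h7⟩ := cov.1 h y hy
      rcases hexc y h6 with h8 | h8
      · exact absurd h8 h7
      · exact h8
    have hnot : ¬ (k ∈ uc z ∧ k' ∈ uc z) := by
      rintro ⟨h6, h7⟩
      have l6 := lev_uc H h6
      have l7 := lev_uc H h7
      have c6 : (uc k).card = 2 := by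
        rcases mem_DD.1 hkD with h8 | h8
        · exact h8.2
        · omega
      have c7 : (uc k').card = 2 := by
        rcases mem_DD.1 hkD' with h8 | h8
        · exact h8.2
        · omega
      have l8 : lev k = i + 1 := by
        rcases mem_DD.1 hkD with h8 | h8
        · exact h8.1
        · omega
      obtain ⟨x, hx, hx'⟩ := hq z (by omega) k h6 k' h7 hne c6 c7
      have hkL : k ∈ dbL P i := mem_dbL.2 ⟨l8, c6⟩
      have hkL' : k' ∈ dbL P i := mem_dbL.2 ⟨by omega, c7⟩
      exact disjoint_left.1 hdis (show x ∈ ns i k by rw [ns_L hkL]; exact hx)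
        (show x ∈ ns i k' by rw [ns_L hkL']; exact hx')
    obtain ⟨y, hy⟩ := uc_nonempty H (x := z) (by omega)
    have fin : ∀ a b, a ∈ bN i e → b ∈ bN i e → a ∈ dbL P i ∪ dbU P i →
        b ∈ dbL P i ∪ dbU P i → a ∈ uc z → b ∉ uc z → (∀ y ∈ uc z, y = a ∨ y = b) →
        Disjoint (ns i a) (ns i b) → e = indK {z, a, b} →
        ∃ y k, Pvt i z y ∧ k ∈ K ∧ k ∈ dbL P i ∪ dbU P i ∧ Disjoint (ns i y) (ns i k) ∧
          e = indK {z, y, k} := by
      intro a b ha hb haD hbD haz hbz hall hdab heab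
      have l6 := lev_uc H haz
      have haL : lev a = i + 1 ∧ (uc a).card = 2 := by
        rcases mem_DD.1 haD with h8 | h8
        · exact h8
        · omega
      refine ⟨a, b, Or.inl ⟨by omega, ?_, mem_dbL.2 haL⟩, ?_, hbD, hdab, heab⟩
      · ext y
        rw [mem_singleton]
        constructor
        · intro hy
          rcases hall y hy with h8 | h8
          · exact h8
          · rw [h8] at hy
            exact absurd hy hbz
        · rintro rfl
          exact haz
      · refine toK' b hb ?_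
        rintro (⟨-, h8⟩ | ⟨h8, -⟩)
        · exact hbz h8
        · omega
    rcases hsub y hy with rfl | rfl
    · exact fin y k' hkb hkb' hkD hkD' hy (fun h8 => hnot ⟨hy, h8⟩) hsub hdis he
    · exact fin y k hkb' hkb hkD' hkD hy (fun h8 => hnot ⟨h8, hy⟩) (fun t ht => (hsub t ht).symm)
        hdis.symm (by rw [he, pair_comm])
  · -- `z` above the window
    have hsub : ∀ y ∈ dc z, y = k ∨ y = k' := by
      intro y hy
      obtain ⟨h6, h7⟩ := cov.2 h y hy
      rcases hexc y h6 with h8 | h8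
      · exact absurd h8 h7
      · exact h8
    have hnot : ¬ (k ∈ dc z ∧ k' ∈ dc z) := by
      rintro ⟨h6, h7⟩
      have l6 := lev_dc H h6
      have l7 := lev_dc H h7
      have l8 : lev k + 1 = i := by
        rcases mem_DD.1 hkD with h8 | h8
        · omega
        · exact h8.1
      have c6 : (dc k).card = 2 := by
        rcases mem_DD.1 hkD with h8 | h8
        · omega
        · exact h8.2
      have c7 : (dc k').card = 2 := by
        rcases mem_DD.1 hkD' with h8 | h8
        · omega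
        · exact h8.2
      have SU := side_up (i := i) H hir hg
      obtain ⟨x, hx, hx'⟩ := SU.good z (mem_uS.2 (by omega)) (by omega) k h6 k' h7 hne c6 c7
      have hkU : k ∈ dbU P i := mem_dbU.2 ⟨l8, c6⟩
      have hkU' : k' ∈ dbU P i := mem_dbU.2 ⟨by omega, c7⟩
      exact disjoint_left.1 hdis (show x ∈ ns i k by rw [ns_U hkU]; exact hx)
        (show x ∈ ns i k' by rw [ns_U hkU']; exact hx')
    obtain ⟨y, hy⟩ := dc_nonempty H (x := z) (by omega)
    have fin : ∀ a b, a ∈ bN i e → b ∈ bN i e → a ∈ dbL P i ∪ dbU P i →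
        b ∈ dbL P i ∪ dbU P i → a ∈ dc z → b ∉ dc z → (∀ y ∈ dc z, y = a ∨ y = b) →
        Disjoint (ns i a) (ns i b) → e = indK {z, a, b} →
        ∃ y k, Pvt i z y ∧ k ∈ K ∧ k ∈ dbL P i ∪ dbU P i ∧ Disjoint (ns i y) (ns i k) ∧
          e = indK {z, y, k} := by
      intro a b ha hb haD hbD haz hbz hall hdab heab
      have l6 := lev_dc H haz
      have haL : lev a + 1 = i ∧ (dc a).card = 2 := by
        rcases mem_DD.1 haD with h8 | h8
        · omega
        · exact h8
      refine ⟨a, b, Or.inr ⟨by omega, ?_, mem_dbU.2 haL⟩, ?_, hbD, hdab, heab⟩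
      · ext y
        rw [mem_singleton]
        constructor
        · intro hy
          rcases hall y hy with h8 | h8
          · exact h8
          · rw [h8] at hy
            exact absurd hy hbz
        · rintro rfl
          exact haz
      · refine toK' b hb ?_
        rintro (⟨h8, -⟩ | ⟨-, h8⟩)
        · omega
        · exact hbz h8
    rcases hsub y hy with rfl | rfl
    · exact fin y k' hkb hkb' hkD hkD' hy (fun h8 => hnot ⟨hy, h8⟩) hsub hdis he
    · exact fin y k hkb' hkb hkD' hkD hy (fun h8 => hnot ⟨h8, hy⟩) (fun t ht => (hsub t ht).symm)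
        hdis.symm (by rw [he, pair_comm])

end pt

end Pool.Agent.GaussPoset.Win.K2
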