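import Pool.Agent.W_448v_h15.VC

/-!
The value of `w3` of a star component (MP_448cb3_co, case B), part D: the configurations of energy
three on the double near elements cancel against the swap of all natural pairs.
-/

namespace Pool.Agent.GaussPoset.Win.K2

set_option linter.unusedSectionVars false

open Finset I2

universe u

variable {P : Type u} [Fintype P] [PartialOrder P] [DecidableEq P] {r i : ℕ} {e : P → ℕ}

/-- only double near elements are excited -/
def OnD (i : ℕ) (e : P → ℕ) : Prop := ∀ x, 1 ≤ e x → x ∈ dbL P i ∪ dbU P i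

/-- the excited elements -/
def su (e : P → ℕ) : Finset P := univ.filter (fun x => 1 ≤ e x)

lemma mem_su {x : P} : x ∈ su e ↔ 1 ≤ e x := by
  unfold su
  rw [mem_filter]
  exact ⟨fun h => h.2, fun h => ⟨mem_univ _, h⟩⟩

section onD

variable (hD : OnD i e)
include hD

lemma OnD.zero {x : P} (h1 : lev x ≠ i + 1) (h2 : lev x + 1 ≠ i) : e x = 0 := by
  by_contra h
  have h3 := mem_DD.1 (hD x (by omega))
  rcases h3 with h3 | h3 <;> omega

lemma OnD.FD (H : Gr P r) {x : P} (hx : i < lev x) : ¬ FD e x := by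
  rintro ⟨z, hz, hlt⟩
  have h1 := lev_uc H (mem_uc.2 hz)
  have h2 := hD.zero (x := z) (by omega) (by omega)
  omega

lemma OnD.FU (H : Gr P r) {x : P} (hx : lev x < i) : ¬ FU e x := by
  rintro ⟨z, hz, hlt⟩
  have h1 := lev_uc H (mem_uc.2 hz)
  have h2 := hD.zero (x := z) (by omega) (by omega)
  omega

lemma OnD.admL (H : Gr P r) : AdmL i e := fun _ hz h => hD.FD H hz h.1

lemma OnD.admU (H : Gr P r) : AdmU i e := fun _ hz h => hD.FU H hz h.1

lemma OnD.aL (H : Gr P r) : aL i e = 0 := by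
  classical
  unfold Win.aL
  rw [card_eq_zero, filter_eq_empty_iff]
  rintro x _ ⟨h1, h2⟩
  exact hD.FD H h1 h2

lemma OnD.aU (H : Gr P r) : aU i e = 0 := by
  classical
  unfold Win.aU
  rw [card_eq_zero, filter_eq_empty_iff]
  rintro x _ ⟨h1, h2⟩
  exact hD.FU H h1 h2

lemma OnD.pL (H : Gr P r) : pL i e = (su e ∩ dbL P i).card := by
  classical
  unfold Win.pL
  congr 1
  ext z
  simp only [mem_filter, mem_univ, true_and, mem_inter, mem_su]
  constructor
  · rintro ⟨h1, -, h3⟩
    have h4 : 1 ≤ e z := by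
      by_contra h4
      obtain ⟨y, hy⟩ := uc_nonempty H (x := z) (by omega)
      exact h3 ⟨y, mem_uc.1 hy, by omega⟩
    refine ⟨h4, ?_⟩
    rcases mem_union.1 (hD z h4) with h5 | h5
    · exact h5
    · have := (mem_dbU.1 h5).1
      omega
  · rintro ⟨h1, h2⟩
    have h3 := (mem_dbL.1 h2).1
    refine ⟨by omega, hD.FD H (by omega), ?_⟩
    rintro ⟨y, hy, hle⟩
    have h4 := lev_uc H (mem_uc.2 hy)
    have h5 := hD.zero (x := y) (by omega) (by omega)
    omega

lemma OnD.pU (H : Gr P r) (hir : i ≤ r) : pU i e = (su e ∩ dbU P i).card := by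
  classical
  unfold Win.pU
  congr 1
  ext z
  simp only [mem_filter, mem_univ, true_and, mem_inter, mem_su]
  constructor
  · rintro ⟨h1, -, h3⟩
    have h4 : 1 ≤ e z := by
      by_contra h4
      obtain ⟨y, hy⟩ := dc_nonempty H (x := z) (by omega)
      exact h3 ⟨y, mem_dc.1 hy, by omega⟩
    refine ⟨h4, ?_⟩
    rcases mem_union.1 (hD z h4) with h5 | h5
    · have := (mem_dbL.1 h5).1
      omega
    · exact h5
  · rintro ⟨h1, h2⟩
    have h3 := (mem_dbU.1 h2).1
    refine ⟨by omega, hD.FU H (by omega), ?_⟩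
    rintro ⟨y, hy, hle⟩
    have h4 := lev_dc H (mem_dc.2 hy)
    have h5 := hD.zero (x := y) (by omega) (by omega)
    omega

lemma OnD.AL (H : Gr P r) : AL i e = (su e ∩ dbL P i).biUnion (ns i) := by
  ext v
  rw [NormD_mem_AL, mem_biUnion]
  constructor
  · rintro ⟨h1, x, hx, hlt⟩
    have h2 := lev_uc H (mem_uc.2 hx)
    have h3 := hD x (by omega)
    have h4 : x ∈ dbL P i := by
      rcases mem_union.1 h3 with h5 | h5
      · exact h5
      · have := (mem_dbU.1 h5).1
        omega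
    refine ⟨x, mem_inter.2 ⟨mem_su.2 (by omega), h4⟩, ?_⟩
    rw [ns_L h4]
    exact mem_uc.2 hx
  · rintro ⟨x, hx, hv⟩
    rw [mem_inter, mem_su] at hx
    rw [ns_L hx.2] at hv
    have h1 := lev_uc H hv
    have h2 := (mem_dbL.1 hx.2).1
    have h3 := hD.zero (x := v) (by omega) (by omega)
    exact ⟨by omega, x, mem_uc.1 hv, by omega⟩

lemma OnD.AU (H : Gr P r) : AU i e = (su e ∩ dbU P i).biUnion (ns i) := by
  ext v
  rw [NormD_mem_AU, mem_biUnion]
  constructor
  · rintro ⟨h1, x, hx, hlt⟩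
    have h2 := lev_uc H (mem_uc.2 hx)
    have h3 := hD x (by omega)
    have h4 : x ∈ dbU P i := by
      rcases mem_union.1 h3 with h5 | h5
      · have := (mem_dbL.1 h5).1
        omega
      · exact h5
    refine ⟨x, mem_inter.2 ⟨mem_su.2 (by omega), h4⟩, ?_⟩
    rw [ns_U h4]
    exact mem_dc.2 hx
  · rintro ⟨x, hx, hv⟩
    rw [mem_inter, mem_su] at hx
    rw [ns_U hx.2] at hv
    have h1 := lev_dc H hv
    have h2 := (mem_dbU.1 hx.2).1
    have h3 := hD.zero (x := v) (by omega) (by omega)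
    exact ⟨by omega, x, mem_dc.1 hv, by omega⟩

lemma OnD.su_sub : su e ⊆ dbL P i ∪ dbU P i := fun x hx => hD x (mem_su.1 hx)

lemma OnD.card_su : (su e ∩ dbL P i).card + (su e ∩ dbU P i).card = (su e).card := by
  rw [← card_union_of_disjoint]
  · rw [← inter_union_distrib_left, inter_eq_left.2 hD.su_sub]
  · rw [disjoint_left]
    intro x h1 h2
    rw [mem_inter] at h1 h2
    have h3 := (mem_dbL.1 h1.2).1
    have h4 := (mem_dbU.1 h2.2).1
    omega

/-- the leading coefficient of a configuration of order two on the double near elements -/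
lemma OnD.lead (H : Gr P r) (hir : i ≤ r) {C : Finset P} (hC : Part i C) (hs : Spt C e)
    {a b l m : ℕ} (ha : (su e ∩ dbL P i).card = a) (hb : (su e ∩ dbU P i).card = b)
    (hl : ((su e ∩ dbL P i).biUnion (ns i)).card = l)
    (hm : ((su e ∩ dbU P i).biUnion (ns i)).card = m) (ho : l + m = a + b + 2)
    (hd : Disjoint ((su e ∩ dbL P i).biUnion (ns i)) ((su e ∩ dbU P i).biUnion (ns i))) :
    dd ^ ((st i C).card - 1) ∣ tC i C e - (((-1 : ℤ) ^ (b + l) : ℤ) : A) *
      dd ^ ((st i C).card - 2) := by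
  have hd' : Disjoint (Win.AL i e) (Win.AU i e) := by
    rw [hD.AL H, hD.AU H]
    exact hd
  have h1 := tC_lead (C := C) (hD.admL H) (hD.admU H) hd' (by
    rw [hD.AL H, hD.AU H, hD.pL H, hD.pU H hir, ha, hb, hl, hm, ho]) (card_le_st H hC hs hd')
  rw [hD.aL H, hD.aU H, hD.pU H hir, hD.AL H, hb, hl, zero_add, zero_add] at h1
  exact h1

end onD

section tau

variable {K : Finset P} {psi : P → P}

/-- the swap of all natural pairs -/
noncomputable def tau (i : ℕ) (K : Finset P) (psi : P → P) (x : P) : P :=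
  if x ∈ (dbL P i ∪ dbU P i) \ K then psi x else x

lemma tau_in {x : P} (h : x ∈ (dbL P i ∪ dbU P i) \ K) : tau i K psi x = psi x := by
  unfold tau
  rw [if_pos h]

lemma tau_out {x : P} (h : x ∉ (dbL P i ∪ dbU P i) \ K) : tau i K psi x = x := by
  unfold tau
  rw [if_neg h]

variable (hM : Mat P i K psi)
include hM

/-- the partner of a matched element -/
lemma psi_data {x : P} (h : x ∈ (dbL P i ∪ dbU P i) \ K) :
    psi x ∈ (dbL P i ∪ dbU P i) \ K ∧ psi (psi x) = x ∧ ns i (psi x) = ns i x ∧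
      (x ∈ dbL P i → psi x ∈ dbU P i) ∧ (x ∈ dbU P i → psi x ∈ dbL P i) := by
  rw [mem_sdiff] at h
  have hLU : ∀ {y : P}, y ∈ dbL P i → y ∈ dbU P i → False := by
    intro y h1 h2
    have h3 := (mem_dbL.1 h1).1
    have h4 := (mem_dbU.1 h2).1
    omega
  rcases mem_union.1 h.1 with h1 | h1
  · obtain ⟨p1, p2, p3, p4⟩ := psi_low hM h1 h.2
    refine ⟨mem_sdiff.2 ⟨mem_union_right _ p1, p4⟩, p3, ?_, fun _ => p1,
      fun h2 => (hLU h1 h2).elim⟩
    rw [ns_U p1, ns_L h1, p2]
  · obtain ⟨p1, p2, p3, p4⟩ := psi_up hM h1 h.2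
    refine ⟨mem_sdiff.2 ⟨mem_union_left _ p1, p4⟩, p3, ?_, fun h2 => (hLU h2 h1).elim,
      fun _ => p1⟩
    rw [ns_L p1, ns_U h1, p2]

lemma tau_tau (x : P) : tau i K psi (tau i K psi x) = x := by
  by_cases h : x ∈ (dbL P i ∪ dbU P i) \ K
  · rw [tau_in h, tau_in (psi_data hM h).1, (psi_data hM h).2.1]
  · rw [tau_out h, tau_out h]

lemma tau_mem_DD {x : P} : tau i K psi x ∈ dbL P i ∪ dbU P i ↔ x ∈ dbL P i ∪ dbU P i := by
  by_cases h : x ∈ (dbL P i ∪ dbU P i) \ K
  · rw [tau_in h]
    have h1 := (psi_data hM h).1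
    rw [mem_sdiff] at h h1
    exact ⟨fun _ => h.1, fun _ => h1.1⟩
  · rw [tau_out h]

omit hM in
/-- the configuration with all natural pairs swapped -/
noncomputable def Ph (i : ℕ) (K : Finset P) (psi : P → P) (e : P → ℕ) : P → ℕ := fun x => e (tau i K psi x)

lemma Ph_Ph (e : P → ℕ) : Ph i K psi (Ph i K psi e) = e := by
  funext x
  unfold Ph
  rw [tau_tau hM]

lemma sum_Ph (e : P → ℕ) : ∑ x, Ph i K psi e x = ∑ x, e x :=
  Equiv.sum_comp (Function.Involutive.toPerm (tau i K psi) (tau_tau hM)) e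

lemma OnD.Ph (hD : OnD i e) : OnD i (Ph i K psi e) := by
  intro x hx
  exact (tau_mem_DD hM).1 (hD _ hx)

/-- parts contain both elements of a natural pair -/
lemma tau_C (H : Gr P r) {C : Finset P} (hC : Part (i + 1) C) {x : P} (hx : tau i K psi x ∈ C) :
    x ∈ C := by
  by_cases h : x ∈ (dbL P i ∪ dbU P i) \ K
  · rw [tau_in h] at hx
    obtain ⟨-, p2, p3, p4, p5⟩ := psi_data hM h
    rw [mem_sdiff] at h
    rcases mem_union.1 h.1 with h1 | h1
    · have h2 := p4 h1
      rw [ns_U h2, ns_L h1] at p3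
      have h3 := mem_dbL.1 h1
      have h4 := mem_dbU.1 h2
      obtain ⟨t, ht⟩ : (uc x).Nonempty := by
        rw [← card_pos]
        omega
      have htl := lev_uc H ht
      have ht' : t ⋖ psi x := by
        rw [← mem_dc, p3]
        exact ht
      exact hC.dn (hC.dn (x := t) hx (by omega) ht') (by omega) (mem_uc.1 ht)
    · have h2 := p5 h1
      rw [ns_L h2, ns_U h1] at p3
      obtain ⟨t, ht⟩ : (dc x).Nonempty := by
        rw [← card_pos]
        have := (mem_dbU.1 h1).2
        omega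
      have ht' : psi x ⋖ t := by
        rw [← mem_uc, p3]
        exact ht
      exact hC.up (hC.up hx ht') (mem_dc.1 ht)
  · rwa [tau_out h] at hx

lemma spt_Ph (H : Gr P r) {C : Finset P} (hC : Part (i + 1) C) (hs : Spt C e) :
    Spt C (Ph i K psi e) := by
  intro x hx
  exact hs _ fun h => hx (tau_C hM H hC h)

/-- the simple edges are not changed -/
lemma SK_Ph_sub (H : Gr P r) (hD : OnD i e) :
    SK i K psi e ⊆ SK i K psi (Ph i K psi e) := by
  intro y hy
  obtain ⟨h1, h2⟩ := mem_SK2.1 hy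
  have l1 := dL1 h1
  have hyD : y ∈ (dbL P i ∪ dbU P i) \ K := by
    rw [mem_sdiff] at h1 ⊢
    exact ⟨mem_union_left _ h1.1, h1.2⟩
  obtain ⟨p1, p2, p3, p4, -⟩ := psi_data hM hyD
  have hyL : y ∈ dbL P i := (mem_sdiff.1 h1).1
  have pU := p4 hyL
  have l2 := mem_dbU.1 pU
  have hDP := hD.Ph hM
  have h3 : Ph i K psi e y = e (psi y) := by
    unfold Ph
    rw [tau_in hyD]
  have h4 : Ph i K psi e (psi y) = e y := by
    unfold Ph
    rw [tau_in p1, p2]
  have site : ∀ x, lev x = i → Ph i K psi e x = e x := by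
    intro x hx
    rw [hDP.zero (by omega) (by omega), hD.zero (by omega) (by omega)]
  rw [ns_U pU, ns_L hyL] at p3
  refine mem_SK2.2 ⟨h1, ?_, ?_, ?_, ?_, ?_, ?_⟩
  · rw [h3, h4]
    rcases h2.one with h | h
    · exact Or.inr ⟨h.2, h.1⟩
    · exact Or.inl ⟨h.2, h.1⟩
  · intro z hz
    have := lev_dc H hz
    exact hDP.zero (by omega) (by omega)
  · intro z hz
    have := lev_uc H hz
    exact hDP.zero (by omega) (by omega)
  · obtain ⟨x, hx, hx0⟩ := h2.ex
    have := lev_uc H hx
    exact ⟨x, hx, by rw [site x (by omega)]; exact hx0⟩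
  · intro x hx hx0 z hz hzy
    have l3 := lev_uc H hx
    have l4 := lev_dc H hz
    rw [site x (by omega)] at hx0
    unfold Ph
    by_cases h : z ∈ (dbL P i ∪ dbU P i) \ K
    · rw [tau_in h]
      obtain ⟨q1, q2, q3, q4, -⟩ := psi_data hM h
      have hzL : z ∈ dbL P i := by
        rcases mem_union.1 (mem_sdiff.1 h).1 with h5 | h5
        · exact h5
        · have := (mem_dbU.1 h5).1
          omega
      have hqU := q4 hzL
      rw [ns_U hqU, ns_L hzL] at q3
      refine h2.up' x hx hx0 _ ?_ ?_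
      · rw [mem_uc, ← mem_dc, q3, mem_uc]
        exact mem_dc.1 hz
      · intro h5
        apply hzy
        rw [← q2, h5, p2]
    · rw [tau_out h]
      exact h2.lo' x hx hx0 z hz hzy
  · intro x hx hx0 z hz hzy
    have l3 := lev_uc H hx
    have l4 := lev_uc H hz
    rw [site x (by omega)] at hx0
    unfold Ph
    by_cases h : z ∈ (dbL P i ∪ dbU P i) \ K
    · rw [tau_in h]
      obtain ⟨q1, q2, q3, -, q5⟩ := psi_data hM h
      have hzU : z ∈ dbU P i := by
        rcases mem_union.1 (mem_sdiff.1 h).1 with h5 | h5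
        · have := (mem_dbL.1 h5).1
          omega
        · exact h5
      have hqL := q5 hzU
      rw [ns_L hqL, ns_U hzU] at q3
      refine h2.lo' x hx hx0 _ ?_ ?_
      · rw [mem_dc, ← mem_uc, q3, mem_dc]
        exact mem_uc.1 hz
      · intro h5
        apply hzy
        rw [← q2, h5]
    · rw [tau_out h]
      exact h2.up' x hx hx0 z hz hzy

lemma SK_Ph (H : Gr P r) (hD : OnD i e) : SK i K psi (Ph i K psi e) = SK i K psi e := by
  apply Finset.Subset.antisymm
  · have h1 := SK_Ph_sub hM H (hD.Ph hM)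
    rwa [Ph_Ph hM] at h1
  · exact SK_Ph_sub hM H hD

/-- the excited elements after the swap of all natural pairs -/
lemma su_Ph {k : P} {F0 : Finset P} (hF : su e = insert k F0) (hkK : k ∈ K)
    (h0 : F0 ⊆ (dbL P i ∪ dbU P i) \ K) :
    su (Ph i K psi e) = insert k (F0.image psi) := by
  have hk : k ∉ (dbL P i ∪ dbU P i) \ K := by
    rw [mem_sdiff]
    exact fun h => h.2 hkK
  ext x
  rw [mem_su, mem_insert, mem_image]
  change 1 ≤ e (tau i K psi x) ↔ _
  rw [← mem_su, hF, mem_insert]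
  constructor
  · rintro (h | h)
    · left
      rw [← tau_tau hM x, h, tau_out hk]
    · right
      refine ⟨tau i K psi x, h, ?_⟩
      rw [← tau_in (psi := psi) (h0 h), tau_tau hM]
  · rintro (rfl | ⟨y, hy, rfl⟩)
    · left
      exact tau_out hk
    · right
      rw [← tau_in (i := i) (K := K) (psi := psi) (h0 hy), tau_tau hM]
      exact hy

end tau

end Pool.Agent.GaussPoset.Win.K2
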