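import Pool.Agent.W_448v_h15.VD

/-!
The value of `w3` of a star component (MP_448cb3_co, case B), part E: the configurations of energy
three on the double near elements: classification and cancellation.
-/

namespace Pool.Agent.GaussPoset.Win.K2

set_option linter.unusedSectionVars false

open Finset I2

universe u

variable {P : Type u} [Fintype P] [PartialOrder P] [DecidableEq P] {r i : ℕ} {e : P → ℕ}
variable {K : Finset P} {psi : P → P}

lemma not_LU {y : P} (h1 : y ∈ dbL P i) (h2 : y ∈ dbU P i) : False := by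
  have h3 := (mem_dbL.1 h1).1
  have h4 := (mem_dbU.1 h2).1
  omega

/-- the sum of two opposite leading terms -/
lemma add_dvd {n : ℕ} {X Y Z : A} {a b : ℤ} (h1 : dd ^ n ∣ X - (a : A) * Z)
    (h2 : dd ^ n ∣ Y - (b : A) * Z) (h : a + b = 0) : dd ^ n ∣ X + Y := by
  have h3 := dvd_add h1 h2
  have h4 : X - (a : A) * Z + (Y - (b : A) * Z) = X + Y := by
    have h5 : (a : A) + (b : A) = 0 := by
      rw [← Int.cast_add, h, Int.cast_zero]
    have h6 : X - (a : A) * Z + (Y - (b : A) * Z) = X + Y - ((a : A) + (b : A)) * Z := by ring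
    rw [h6, h5, zero_mul, sub_zero]
  rwa [h4] at h3

/-- THE PAIR `F0`, `psi F0` -/
theorem pair_dvd (hM : Mat P i K psi) (H : Gr P r) (hir : i ≤ r) {C : Finset P}
    (hC : Part (i + 1) C) (hD : OnD i e) (hs : Spt C e) {k : P} {F0 : Finset P}
    (hF : su e = insert k F0) (hk : k ∉ F0) (hkD : k ∈ dbL P i ∪ dbU P i) (hkK : k ∈ K)
    (h0 : F0 ⊆ dbL P i \ K) (hdis : ∀ x ∈ F0, Disjoint (ns i k) (ns i x))
    (hc : (F0.biUnion (ns i)).card = F0.card + 1) :
    dd ^ ((st i C).card - 1) ∣ tC i C e + tC i C (Ph i K psi e) := by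
  classical
  have hC' : Part i C := ⟨fun h1 h2 => hC.up h1 h2, fun h1 h2 h3 => hC.dn h1 (by omega) h3⟩
  have h0' : F0 ⊆ (dbL P i ∪ dbU P i) \ K := by
    intro x hx
    have := mem_sdiff.1 (h0 hx)
    exact mem_sdiff.2 ⟨mem_union_left _ this.1, this.2⟩
  have hF' := su_Ph hM hF hkK h0'
  have hDP := hD.Ph hM
  have hsP := spt_Ph hM H hC hs
  have hL0 : ∀ x ∈ F0, x ∈ dbL P i := fun x hx => (mem_sdiff.1 (h0 hx)).1
  have hU1 : ∀ x ∈ F0.image psi, x ∈ dbU P i := by
    intro x hx
    obtain ⟨y, hy, rfl⟩ := mem_image.1 hx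
    exact (psi_data hM (h0' hy)).2.2.2.1 (hL0 y hy)
  have hci : (F0.image psi).card = F0.card := by
    apply card_image_of_injOn
    intro x hx y hy hxy
    rw [← (psi_data hM (h0' hx)).2.1, hxy, (psi_data hM (h0' hy)).2.1]
  have hbi : (F0.image psi).biUnion (ns i) = F0.biUnion (ns i) := by
    rw [image_biUnion]
    refine biUnion_congr rfl fun x hx => ?_
    exact (psi_data hM (h0' hx)).2.2.1
  have hkF : k ∉ F0.image psi := by
    intro h
    obtain ⟨y, hy, h2⟩ := mem_image.1 h
    have h3 := (mem_sdiff.1 (psi_data hM (h0' hy)).1).2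
    rw [h2] at h3
    exact h3 hkK
  have hdb : Disjoint (ns i k) (F0.biUnion (ns i)) := by
    rw [disjoint_biUnion_right]
    exact hdis
  have hdbi := hdb
  rw [← hbi] at hdbi
  have c2 : (ns i k).card = 2 := ns_card hkD
  rcases mem_union.1 hkD with hkL | hkU
  · -- `k` lower
    have a1 : su e ∩ dbL P i = insert k F0 := by
      rw [hF, inter_eq_left]
      intro x hx
      rcases mem_insert.1 hx with rfl | hx
      · exact hkL
      · exact hL0 x hx
    have a2 : su e ∩ dbU P i = ∅ := by
      rw [hF, eq_empty_iff_forall_notMem]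
      intro x hx
      rw [mem_inter, mem_insert] at hx
      rcases hx with ⟨rfl | hx, h⟩
      · exact not_LU hkL h
      · exact not_LU (hL0 x hx) h
    have b1 : su (Ph i K psi e) ∩ dbL P i = {k} := by
      rw [hF']
      ext x
      rw [mem_inter, mem_insert, mem_singleton]
      constructor
      · rintro ⟨h | h, h2⟩
        · exact h
        · exact (not_LU h2 (hU1 x h)).elim
      · rintro rfl
        exact ⟨Or.inl rfl, hkL⟩
    have b2 : su (Ph i K psi e) ∩ dbU P i = F0.image psi := by
      rw [hF']
      ext x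
      rw [mem_inter, mem_insert]
      constructor
      · rintro ⟨rfl | h, h2⟩
        · exact (not_LU hkL h2).elim
        · exact h
      · intro h
        exact ⟨Or.inr h, hU1 x h⟩
    have h1 := hD.lead H hir hC' hs (a := F0.card + 1) (b := 0) (l := F0.card + 3) (m := 0)
      (by rw [a1, card_insert_of_notMem hk]) (by rw [a2, card_empty])
      (by rw [a1, biUnion_insert, card_union_of_disjoint hdb, hc, c2]; omega)
      (by rw [a2, biUnion_empty, card_empty]) (by omega)
      (by rw [a2, biUnion_empty]; exact disjoint_empty_right _)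
    have h2 := hDP.lead H hir hC' hsP (a := 1) (b := F0.card) (l := 2) (m := F0.card + 1)
      (by rw [b1, card_singleton]) (by rw [b2, hci])
      (by rw [b1, singleton_biUnion, c2]) (by rw [b2, hbi, hc]) (by omega)
      (by rw [b1, b2, singleton_biUnion]; exact hdbi)
    refine add_dvd h1 h2 ?_
    ring
  · -- `k` upper
    have a1 : su e ∩ dbL P i = F0 := by
      rw [hF]
      ext x
      rw [mem_inter, mem_insert]
      constructor
      · rintro ⟨rfl | h, h2⟩
        · exact (not_LU h2 hkU).elim
        · exact h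
      · intro h
        exact ⟨Or.inr h, hL0 x h⟩
    have a2 : su e ∩ dbU P i = {k} := by
      rw [hF]
      ext x
      rw [mem_inter, mem_insert, mem_singleton]
      constructor
      · rintro ⟨h | h, h2⟩
        · exact h
        · exact (not_LU (hL0 x h) h2).elim
      · rintro rfl
        exact ⟨Or.inl rfl, hkU⟩
    have b1 : su (Ph i K psi e) ∩ dbL P i = ∅ := by
      rw [hF', eq_empty_iff_forall_notMem]
      intro x hx
      rw [mem_inter, mem_insert] at hx
      rcases hx with ⟨rfl | hx, h⟩
      · exact not_LU h hkU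
      · exact not_LU h (hU1 x hx)
    have b2 : su (Ph i K psi e) ∩ dbU P i = insert k (F0.image psi) := by
      rw [hF', inter_eq_left]
      intro x hx
      rcases mem_insert.1 hx with rfl | hx
      · exact hkU
      · exact hU1 x hx
    have h1 := hD.lead H hir hC' hs (a := F0.card) (b := 1) (l := F0.card + 1) (m := 2)
      (by rw [a1]) (by rw [a2, card_singleton])
      (by rw [a1, hc]) (by rw [a2, singleton_biUnion, c2]) (by omega)
      (by rw [a1, a2, singleton_biUnion]; exact hdb.symm)
    have h2 := hDP.lead H hir hC' hsP (a := 0) (b := F0.card + 1) (l := 0) (m := F0.card + 3)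
      (by rw [b1, card_empty]) (by rw [b2, card_insert_of_notMem hkF, hci])
      (by rw [b1, biUnion_empty, card_empty])
      (by rw [b2, biUnion_insert, card_union_of_disjoint hdbi, hbi, hc, c2]; omega) (by omega)
      (by rw [b1, biUnion_empty]; exact disjoint_empty_left _)
    refine add_dvd h1 h2 ?_
    ring

/-- an isolated natural element with label one is simple -/
lemma simp_onD (hM : Mat P i K psi) (H : Gr P r) (hD : OnD i e) {k : P}
    (hk : k ∈ (dbL P i ∪ dbU P i) \ K) (h1 : e k = 1)
    (hiso : ∀ x, 1 ≤ e x → x ≠ k → Disjoint (ns i k) (ns i x)) : SK i K psi e ≠ ∅ := by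
  have hkD := (mem_sdiff.1 hk).1
  obtain ⟨p1, p2, p3, p4, p5⟩ := psi_data hM hk
  have hne : ∀ y ∈ (dbL P i ∪ dbU P i), ns i y = ns i k → y ≠ k → e y = 0 := by
    intro y hy hns hyk
    by_contra h
    have h2 := hiso y (by omega) hyk
    rw [hns, disjoint_self] at h2
    have h3 := ns_card hkD
    rw [h2] at h3
    simp at h3
  have hpk : psi k ≠ k := by
    intro h
    rcases mem_union.1 hkD with h2 | h2
    · have := p4 h2
      rw [h] at this
      exact not_LU h2 this
    · have := p5 h2
      rw [h] at this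
      exact not_LU this h2
  have hek := hne _ (mem_sdiff.1 p1).1 p3 hpk
  -- the lower element of the pair
  obtain ⟨y, hy, hyk, hone⟩ : ∃ y, y ∈ dbL P i \ K ∧ ((k = y ∧ psi k = psi y) ∨
      (psi k = y ∧ k = psi y)) ∧ ((e y = 1 ∧ e (psi y) = 0) ∨ (e y = 0 ∧ e (psi y) = 1)) := by
    rcases mem_union.1 hkD with h2 | h2
    · exact ⟨k, mem_sdiff.2 ⟨h2, (mem_sdiff.1 hk).2⟩, Or.inl ⟨rfl, rfl⟩, Or.inl ⟨h1, hek⟩⟩
    · exact ⟨psi k, mem_sdiff.2 ⟨p5 h2, (mem_sdiff.1 p1).2⟩, Or.inr ⟨rfl, p2.symm⟩,
        Or.inr ⟨hek, by rw [p2]; exact h1⟩⟩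
  have l1 := dL1 hy
  obtain ⟨q1, q2, q3⟩ := psi_lowK hM hy
  have l2 := mem_dbU.1 q1
  have hyL := (mem_sdiff.1 hy).1
  have hnsy : ns i k = uc y := by
    rcases hyk with ⟨h, -⟩ | ⟨h, -⟩
    · rw [h, ns_L hyL]
    · rw [← p3, h, ns_L hyL]
  have hother : ∀ z, 1 ≤ e z → z ≠ y → z ≠ psi y → Disjoint (uc y) (ns i z) := by
    intro z hz h2 h3
    rw [← hnsy]
    refine hiso z hz ?_
    rcases hyk with ⟨h, -⟩ | ⟨-, h⟩
    · rw [h]
      exact h2
    · rw [h]
      exact h3
  intro hSK
  have hmem : y ∈ SK i K psi e := by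
    refine mem_SK2.2 ⟨hy, hone, ?_, ?_, ?_, ?_, ?_⟩
    · intro z hz
      have := lev_dc H hz
      exact hD.zero (by omega) (by omega)
    · intro z hz
      have := lev_uc H hz
      exact hD.zero (by omega) (by omega)
    · obtain ⟨x, hx⟩ : (uc y).Nonempty := by
        rw [← card_pos]
        omega
      have := lev_uc H hx
      exact ⟨x, hx, hD.zero (by omega) (by omega)⟩
    · intro x hx _ z hz hzy
      by_contra h
      have l3 := lev_uc H hx
      have l4 := lev_dc H hz
      have hzD := hD z (by omega)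
      have hzL : z ∈ dbL P i := by
        rcases mem_union.1 hzD with h5 | h5
        · exact h5
        · have := (mem_dbU.1 h5).1
          omega
      have h5 := hother z (by omega) hzy (by rintro rfl; exact not_LU hzL q1)
      rw [ns_L hzL] at h5
      exact disjoint_left.1 h5 hx (mem_uc.2 (mem_dc.1 hz))
    · intro x hx _ z hz hzy
      by_contra h
      have l3 := lev_uc H hx
      have l4 := lev_uc H hz
      have hzD := hD z (by omega)
      have hzU : z ∈ dbU P i := by
        rcases mem_union.1 hzD with h5 | h5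
        · have := (mem_dbL.1 h5).1
          omega
        · exact h5
      have h5 := hother z (by omega) (by rintro rfl; exact not_LU hyL hzU) hzy
      rw [ns_U hzU] at h5
      exact disjoint_left.1 h5 hx (mem_dc.2 (mem_uc.1 hz))
  rw [hSK] at hmem
  exact notMem_empty _ hmem

/-- three pairs with two intersections -/
lemma center {a b c : P} (ha : a ∈ dbL P i ∪ dbU P i) (hb : b ∈ dbL P i ∪ dbU P i)
    (hc : c ∈ dbL P i ∪ dbU P i) (h1 : ¬ Disjoint (ns i a) (ns i b))
    (h2 : ¬ Disjoint (ns i a) (ns i c)) : ((ns i a ∪ ns i b) ∪ ns i c).card ≤ 4 := by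
  have c1 := ns_card ha
  have c2 := ns_card hb
  have c3 := ns_card hc
  rw [disjoint_iff_inter_eq_empty, ← Ne, ← nonempty_iff_ne_empty, ← card_pos] at h1 h2
  have h3 := card_union_add_card_inter (ns i a) (ns i b)
  have h4 := card_union_add_card_inter (ns i a ∪ ns i b) (ns i c)
  have h5 : (ns i a ∩ ns i c).card ≤ ((ns i a ∪ ns i b) ∩ ns i c).card :=
    card_le_card (inter_subset_inter_right subset_union_left)
  omega

/-- an isolated element with label one -/
lemma exists_iso (hD : OnD i e) (h3 : ∑ x, e x = 3)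
    (ho : (su e).card + 2 ≤ ((su e).biUnion (ns i)).card) :
    ∃ k, e k = 1 ∧ ∀ x, 1 ≤ e x → x ≠ k → Disjoint (ns i k) (ns i x) := by
  have hsum : ∑ x ∈ su e, e x = 3 := by
    rw [← h3]
    refine Finset.sum_subset (subset_univ _) fun x _ hx => ?_
    rw [mem_su] at hx
    omega
  have hcs : ∑ x ∈ su e, (ns i x).card = 2 * (su e).card := by
    rw [sum_congr rfl (fun x hx => ns_card (hD.su_sub hx)), sum_const, smul_eq_mul, mul_comm]
  have hle : ((su e).biUnion (ns i)).card ≤ 2 * (su e).card := by
    rw [← hcs]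
    exact card_biUnion_le
  have hle3 : (su e).card ≤ 3 := by
    rw [← hsum, Finset.card_eq_sum_ones]
    exact Finset.sum_le_sum fun x hx => mem_su.1 hx
  have hexc : ∀ x, 1 ≤ e x → x ∈ su e := fun x hx => mem_su.2 hx
  rcases Nat.lt_or_ge (su e).card 3 with hlt | hge
  · have h2 : (su e).card = 2 := by omega
    obtain ⟨a, b, hab, hF⟩ := Finset.card_eq_two.1 h2
    have hdis : Disjoint (ns i a) (ns i b) := by
      refine disj_of_card_biUnion (s := su e) (t := ns i) (by rw [hcs]; omega) ?_ ?_ hab
      · rw [hF]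
        exact mem_insert_self _ _
      · rw [hF]
        exact mem_insert_of_mem (mem_singleton_self _)
    rw [hF, sum_pair hab] at hsum
    have ea : 1 ≤ e a := mem_su.1 (by rw [hF]; exact mem_insert_self _ _)
    have eb : 1 ≤ e b := mem_su.1 (by rw [hF]; exact mem_insert_of_mem (mem_singleton_self _))
    rcases Nat.lt_or_ge (e a) 2 with h | h
    · refine ⟨a, by omega, fun x hx hxa => ?_⟩
      have h4 := hexc x hx
      rw [hF, mem_insert, mem_singleton] at h4
      rcases h4 with rfl | rfl
      · exact absurd rfl hxa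
      · exact hdis
    · refine ⟨b, by omega, fun x hx hxa => ?_⟩
      have h4 := hexc x hx
      rw [hF, mem_insert, mem_singleton] at h4
      rcases h4 with rfl | rfl
      · exact hdis.symm
      · exact absurd rfl hxa
  · have h2 : (su e).card = 3 := by omega
    obtain ⟨a, b, c, hab, hac, hbc, hF⟩ := Finset.card_eq_three.1 h2
    have hbi : (su e).biUnion (ns i) = (ns i a ∪ ns i b) ∪ ns i c := by
      rw [hF, biUnion_insert, biUnion_insert, singleton_biUnion, union_assoc]
    have haD : a ∈ su e := by rw [hF]; exact mem_insert_self _ _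
    have hbD : b ∈ su e := by rw [hF]; exact mem_insert_of_mem (mem_insert_self _ _)
    have hcD : c ∈ su e := by
      rw [hF]
      exact mem_insert_of_mem (mem_insert_of_mem (mem_singleton_self _))
    have haD' := hD.su_sub haD
    have hbD' := hD.su_sub hbD
    have hcD' := hD.su_sub hcD
    rw [mem_su] at haD hbD hcD
    rw [hF, sum_insert (by rw [mem_insert, mem_singleton]; tauto), sum_pair hbc] at hsum
    have hfin : ∀ k u v : P, e k = 1 → (∀ x, x ∈ su e → x = k ∨ x = u ∨ x = v) →
        Disjoint (ns i k) (ns i u) → Disjoint (ns i k) (ns i v) →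
        ∃ k, e k = 1 ∧ ∀ x, 1 ≤ e x → x ≠ k → Disjoint (ns i k) (ns i x) := by
      intro k u v hk hall hu hv
      refine ⟨k, hk, fun x hx hxk => ?_⟩
      rcases hall x (hexc x hx) with rfl | rfl | rfl
      · exact absurd rfl hxk
      · exact hu
      · exact hv
    have hall : ∀ x, x ∈ su e → x = a ∨ x = b ∨ x = c := by
      intro x hx
      rw [hF, mem_insert, mem_insert, mem_singleton] at hx
      exact hx
    rw [hbi, h2] at ho
    by_cases d1 : Disjoint (ns i a) (ns i b)
    · by_cases d2 : Disjoint (ns i a) (ns i c)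
      · exact hfin a b c (by omega) hall d1 d2
      · by_cases d3 : Disjoint (ns i b) (ns i c)
        · exact hfin b a c (by omega) (fun x hx => by have := hall x hx; tauto) d1.symm d3
        · have h5 := center hcD' haD' hbD' (fun h => d2 h.symm) (fun h => d3 h.symm)
          rw [union_assoc, union_comm (ns i c)] at h5
          omega
    · by_cases d2 : Disjoint (ns i a) (ns i c)
      · by_cases d3 : Disjoint (ns i b) (ns i c)
        · exact hfin c a b (by omega) (fun x hx => by have := hall x hx; tauto) d2.symm d3.symm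
        · have h5 := center hbD' haD' hcD' (fun h => d1 h.symm) d3
          rw [union_comm (ns i b) (ns i a)] at h5
          omega
      · have h5 := center haD' hbD' hcD' d1 d2
        omega

end Pool.Agent.GaussPoset.Win.K2
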