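import Pool.Agent.W_448v_h15.VE

/-!
The value of `w3` of a star component (MP_448cb3_co, case B), part F: the sum over the
configurations of energy three on the double near elements.
-/

namespace Pool.Agent.GaussPoset.Win.K2

set_option linter.unusedSectionVars false

open Finset I2

universe u

variable {P : Type u} [Fintype P] [PartialOrder P] [DecidableEq P] {r i : ℕ} {e : P → ℕ}
variable {K : Finset P} {psi : P → P}

section cls

variable (H : Gr P r) (hir : i ≤ r) (hq : NoQ P (i + 2)) (hg : ∀ m, m + 1 = i → Good P m)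
include H hir hq hg

/-- a configuration of order two on the double near elements cancels against its swap -/
theorem onD_dvd (hM : Mat P i K psi) {C : Finset P} (hK : Star i C K) (hC : Part (i + 1) C)
    (hD : OnD i e) (hs : Spt C e) (h3 : ∑ x, e x = 3) (hSK : SK i K psi e = ∅)
    (hd : Disjoint (AL i e) (AU i e)) (ho : pL i e + pU i e + 2 ≤ (AL i e).card + (AU i e).card) :
    dd ^ ((st i C).card - 1) ∣ tC i C e + tC i C (Ph i K psi e) := by
  classical
  have hCe : ∀ x, 1 ≤ e x → x ∈ C := by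
    intro x hx
    by_contra h
    have := hs x h
    omega
  have hb := K_bound H hir hq hg hM hK hs (hD.admL H) (hD.admU H) hd (δ := 0) (Or.inl rfl)
  rw [h3, hSK, card_empty] at hb
  have hcs : pL i e + pU i e = (su e).card := by
    rw [hD.pL H, hD.pU H hir, hD.card_su]
  have hun : (su e).biUnion (ns i) = AL i e ∪ AU i e := by
    rw [hD.AL H, hD.AU H, ← union_biUnion, ← inter_union_distrib_left,
      inter_eq_left.2 hD.su_sub]
  have hcu : ((su e).biUnion (ns i)).card = (su e).card + 2 := by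
    rw [hun, card_union_of_disjoint hd]
    omega
  obtain ⟨k, ek, hiso⟩ := exists_iso hD h3 (by omega)
  have hkD := hD k (by omega)
  have hkK : k ∈ K := by
    by_contra h
    exact simp_onD hM H hD (mem_sdiff.2 ⟨hkD, h⟩) ek hiso hSK
  have hks : k ∈ su e := mem_su.2 (by omega)
  obtain ⟨F0, hF0⟩ : ∃ F0, F0 = (su e).erase k := ⟨_, rfl⟩
  have hF : su e = insert k F0 := by
    rw [hF0, insert_erase hks]
  have hkF : k ∉ F0 := by
    rw [hF0]
    exact notMem_erase _ _
  have hm : ∀ x ∈ F0, 1 ≤ e x ∧ x ≠ k := by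
    intro x hx
    rw [hF0, mem_erase, mem_su] at hx
    exact ⟨hx.2, hx.1⟩
  have hdis : ∀ x ∈ F0, Disjoint (ns i k) (ns i x) := fun x hx => hiso x (hm x hx).1 (hm x hx).2
  have hnK : ∀ x ∈ F0, x ∉ K := by
    intro x hx hxK
    obtain ⟨t, ht, ht'⟩ := hK.two k hkK (hCe k (by omega)) x hxK (hCe x (hm x hx).1)
      (hm x hx).2.symm
    exact disjoint_left.1 (hdis x hx) ht ht'
  have hc0 : F0.card + 1 = (su e).card := by
    rw [hF, card_insert_of_notMem hkF]
  have hc : (F0.biUnion (ns i)).card = F0.card + 1 := by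
    have h4 : (su e).biUnion (ns i) = ns i k ∪ F0.biUnion (ns i) := by
      rw [hF, biUnion_insert]
    rw [h4, card_union_of_disjoint, ns_card hkD] at hcu
    · omega
    · rw [disjoint_biUnion_right]
      exact hdis
  have hle3 : (su e).card ≤ 3 := by
    have hsum : ∑ x ∈ su e, e x = 3 := by
      rw [← h3]
      refine Finset.sum_subset (subset_univ _) fun x _ hx => ?_
      rw [mem_su] at hx
      omega
    rw [← hsum, Finset.card_eq_sum_ones]
    exact Finset.sum_le_sum fun x hx => mem_su.1 hx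
  by_cases hLall : ∀ x ∈ F0, x ∈ dbL P i
  · exact pair_dvd hM H hir hC hD hs hF hkF hkD hkK
      (fun x hx => mem_sdiff.2 ⟨hLall x hx, hnK x hx⟩) hdis hc
  · push Not at hLall
    obtain ⟨y, hy, hyL⟩ := hLall
    have hyU : y ∈ dbU P i := by
      rcases mem_union.1 (hD y (hm y hy).1) with h | h
      · exact absurd h hyL
      · exact h
    have hUall : ∀ x ∈ F0, x ∈ dbU P i := by
      intro x hx
      by_contra hxU
      have hxL : x ∈ dbL P i := by
        rcases mem_union.1 (hD x (hm x hx).1) with h | h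
        · exact h
        · exact absurd h hxU
      have hxy : x ≠ y := by
        rintro rfl
        exact hxU hyU
      have h5 : ({x, y} : Finset P) ⊆ F0 := by
        intro t ht
        rw [mem_insert, mem_singleton] at ht
        rcases ht with rfl | rfl <;> assumption
      have h6 : F0 = {x, y} := by
        symm
        apply eq_of_subset_of_card_le h5
        rw [card_pair hxy]
        omega
      have h7 : (ns i x ∪ ns i y).card = 3 := by
        have h8 := hc
        rw [h6, card_pair hxy, biUnion_insert, singleton_biUnion] at h8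
        exact h8
      have h8 := card_union_add_card_inter (ns i x) (ns i y)
      rw [ns_card (mem_union_left _ hxL), ns_card (mem_union_right _ hyU), h7] at h8
      obtain ⟨v, hv⟩ : (ns i x ∩ ns i y).Nonempty := by
        rw [← card_pos]
        omega
      rw [mem_inter] at hv
      have v1 : v ∈ AL i e := by
        rw [hD.AL H, mem_biUnion]
        exact ⟨x, mem_inter.2 ⟨mem_su.2 (hm x hx).1, hxL⟩, hv.1⟩
      have v2 : v ∈ AU i e := by
        rw [hD.AU H, mem_biUnion]
        exact ⟨y, mem_inter.2 ⟨mem_su.2 (hm y hy).1, hyU⟩, hv.2⟩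
      exact disjoint_left.1 hd v1 v2
    have h0' : F0 ⊆ (dbL P i ∪ dbU P i) \ K := by
      intro x hx
      exact mem_sdiff.2 ⟨mem_union_right _ (hUall x hx), hnK x hx⟩
    have hF' := su_Ph hM hF hkK h0'
    have hci : (F0.image psi).card = F0.card := by
      apply card_image_of_injOn
      intro x hx y hy hxy
      rw [← (psi_data hM (h0' hx)).2.1, hxy, (psi_data hM (h0' hy)).2.1]
    have hbi : (F0.image psi).biUnion (ns i) = F0.biUnion (ns i) := by
      rw [image_biUnion]
      refine biUnion_congr rfl fun x hx => ?_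
      exact (psi_data hM (h0' hx)).2.2.1
    have h4 := pair_dvd (e := Ph i K psi e) hM H hir hC (hD.Ph hM) (spt_Ph hM H hC hs) hF'
      (by
        intro h
        obtain ⟨y, hy, h2⟩ := mem_image.1 h
        have h3 := (mem_sdiff.1 (psi_data hM (h0' hy)).1).2
        rw [h2] at h3
        exact h3 hkK) hkD hkK
      (by
        intro x hx
        obtain ⟨y, hy, rfl⟩ := mem_image.1 hx
        obtain ⟨q1, -, -, -, q5⟩ := psi_data hM (h0' hy)
        exact mem_sdiff.2 ⟨q5 (hUall y hy), (mem_sdiff.1 q1).2⟩)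
      (by
        intro x hx
        obtain ⟨y, hy, rfl⟩ := mem_image.1 hx
        rw [(psi_data hM (h0' hy)).2.2.1]
        exact hdis y hy)
      (by rw [hbi, hci, hc])
    rw [Ph_Ph hM, add_comm] at h4
    exact h4

omit H hir hq hg in
lemma two_dvd {n : ℕ} {X : A} (h : dd ^ n ∣ 2 * X) : dd ^ n ∣ X := by
  unfold dd at h ⊢
  rw [PowerSeries.X_pow_dvd_iff] at h ⊢
  intro m hm
  have h1 := h m hm
  have h2 : (2 : A) * X = X + X := by ring
  rw [h2, map_add] at h1
  omega

/-- the configurations of energy three on the double near elements without simple edges -/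
theorem sum_onD (hM : Mat P i K psi) {C : Finset P} (hK : Star i C K) (hC : Part (i + 1) C)
    (hb : 1 ≤ (st i C).card) {Ω : Finset (P → ℕ)}
    (hΩ : ∀ e : P → ℕ, e ∈ Ω ↔ ∑ x, e x = 3 ∧ Spt C e ∧ OnD i e ∧ SK i K psi e = ∅) :
    dd ^ ((st i C).card - 1) ∣ ∑ e ∈ Ω, tC i C e := by
  classical
  have hP : ∀ e ∈ Ω, Ph i K psi e ∈ Ω := by
    intro e he
    rw [hΩ] at he ⊢
    obtain ⟨h1, h2, h3, h4⟩ := he
    refine ⟨by rw [sum_Ph hM]; exact h1, spt_Ph hM H hC h2, h3.Ph hM, ?_⟩
    rw [SK_Ph hM H h3, h4]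
  have h1 : ∑ e ∈ Ω, tC i C (Ph i K psi e) = ∑ e ∈ Ω, tC i C e := by
    refine Finset.sum_nbij' (fun e => Ph i K psi e) (fun e => Ph i K psi e) hP hP
      (fun e _ => Ph_Ph hM e) (fun e _ => Ph_Ph hM e) (fun e _ => rfl)
  apply two_dvd
  have h2 : 2 * ∑ e ∈ Ω, tC i C e = ∑ e ∈ Ω, (tC i C e + tC i C (Ph i K psi e)) := by
    rw [Finset.sum_add_distrib, h1]
    ring
  rw [h2]
  refine Finset.dvd_sum fun e he => ?_
  have hsmall : ∀ e ∈ Ω, ¬ (Disjoint (AL i e) (AU i e) ∧
      pL i e + pU i e + 2 ≤ (AL i e).card + (AU i e).card) →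
      dd ^ ((st i C).card - 1) ∣ tC i C e := by
    intro e he h
    have h3 := VA_tC_dvd (i := i) (e := e) (C := C) (m := (st i C).card - 1) (n := 1) (k := 0)
      (by omega) (by
      intro _ _ hd
      by_contra h4
      exact h ⟨hd, by omega⟩)
    rwa [pow_zero, mul_one] at h3
  have hall := fun e (he : e ∈ Ω) => (hΩ e).1 he
  by_cases c1 : Disjoint (AL i e) (AU i e) ∧
      pL i e + pU i e + 2 ≤ (AL i e).card + (AU i e).card
  · obtain ⟨a1, a2, a3, a4⟩ := hall e he
    exact onD_dvd H hir hq hg hM hK hC a3 a2 a1 a4 c1.1 c1.2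
  · by_cases c2 : Disjoint (AL i (Ph i K psi e)) (AU i (Ph i K psi e)) ∧
        pL i (Ph i K psi e) + pU i (Ph i K psi e) + 2 ≤
          (AL i (Ph i K psi e)).card + (AU i (Ph i K psi e)).card
    · obtain ⟨a1, a2, a3, a4⟩ := hall _ (hP e he)
      have h3 := onD_dvd H hir hq hg hM hK hC a3 a2 a1 a4 c2.1 c2.2
      rw [Ph_Ph hM, add_comm] at h3
      exact h3
    · exact dvd_add (hsmall e he c1) (hsmall _ (hP e he) c2)

end cls

/-- the sum over a class given by an explicit list -/
lemma sum_list {ι : Type*} {C : Finset P} {n : ℕ} {Z : A} (I : Finset ι) (m : ι → P → ℕ)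
    (v : ι → ℤ) (Ω : Finset (P → ℕ)) (hm : ∀ a ∈ I, m a ∈ Ω)
    (hinj : ∀ a ∈ I, ∀ b ∈ I, m a = m b → a = b)
    (hlead : ∀ a ∈ I, dd ^ n ∣ tC i C (m a) - (v a : A) * Z)
    (hrest : ∀ e ∈ Ω, (∀ a ∈ I, m a ≠ e) → dd ^ n ∣ tC i C e) :
    dd ^ n ∣ ∑ e ∈ Ω, tC i C e - ((∑ a ∈ I, v a : ℤ) : A) * Z := by
  classical
  have h1 : I.image m ⊆ Ω := by
    intro e he
    obtain ⟨a, ha, rfl⟩ := mem_image.1 he
    exact hm a ha
  have h2 : ∑ e ∈ Ω, tC i C e = ∑ e ∈ Ω \ I.image m, tC i C e + ∑ a ∈ I, tC i C (m a) := by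
    rw [← Finset.sum_sdiff h1, Finset.sum_image (fun a ha b hb h => hinj a ha b hb h)]
  rw [h2, Int.cast_sum, Finset.sum_mul, add_sub_assoc, ← Finset.sum_sub_distrib]
  refine dvd_add (Finset.dvd_sum fun e he => ?_) (Finset.dvd_sum fun a ha => hlead a ha)
  rw [mem_sdiff] at he
  refine hrest e he.1 fun a ha h => he.2 ?_
  rw [← h]
  exact mem_image_of_mem _ ha

end Pool.Agent.GaussPoset.Win.K2
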